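import Mathlib
import Pool.Agent.H92.TD.Defs
import Pool.Agent.H92.TP.PDefs
import Pool.Agent.H92.TP.NonBad

/-!
MP_5aa732_co: a vertex `v` such that the maximum cliques avoiding `N[v]` satisfy an exchange condition.
-/

set_option autoImplicit false
set_option linter.unusedSectionVars false
set_option linter.unusedVariables false

namespace Pool.Agent.H92.HM

open SimpleGraph Finset Pool.Agent.H92.TD Pool.Agent.H92.TP

variable {V : Type} [Fintype V] {G : SimpleGraph V} {m : ℕ}

/-- The exchange condition at `v`. -/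
def ExchAt {V : Type} (G : SimpleGraph V) (w : ℕ) (v : V) : Prop :=
  ∀ (K K' T : Finset V) (x x' : V), G.IsNClique w K → G.IsNClique w K' → G.IsNClique w T →
    (v ∉ K ∧ ∀ k ∈ K, ¬ G.Adj v k) → (v ∉ K' ∧ ∀ k ∈ K', ¬ G.Adj v k) → v ∉ T →
    x ∈ K → x ∈ T → x' ∈ K' → x' ∈ T → x ≠ x' → (∀ t ∈ T, t ∈ K → t = x) →
    (∀ t ∈ T, t ∈ K' → t = x') →
    ∃ K'' : Finset V, G.IsNClique w K'' ∧ ∀ k ∈ K'', (k ∈ K ∨ k ∈ K') ∧ k ≠ x ∧ k ≠ x'

theorem exch_col (hm : 1 ≤ m) (hf : G.CliqueFree (m + 2)) (h5 : C5free G) (v : V)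
    (hE : ExchAt G (m + 1) v) :
    ∃ c : V → Bool, ∀ K : Finset V, G.IsNClique (m + 1) K → ∀ b : Bool, ¬ ∀ x ∈ K, c x = b := by
  classical
  -- transversals of good vertices
  obtain ⟨P, hP⟩ : ∃ P : Finset V → Prop, ∀ S, P S ↔
      ((∀ x ∈ S, x ≠ v ∧ ¬ G.Adj v x ∧ ¬ BadFor G m v x) ∧
      ∀ K, G.IsNClique (m + 1) K → Rem G K v → ∃ k ∈ K, k ∈ S) := ⟨_, fun S => Iff.rfl⟩
  have hex : ∃ S : Finset V, P S := by
    refine ⟨Finset.univ.filter (fun x => x ≠ v ∧ ¬ G.Adj v x ∧ ¬ BadFor G m v x), (hP _).2 ⟨?_, ?_⟩⟩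
    · intro x hx
      exact (Finset.mem_filter.1 hx).2
    · intro K hK hR
      obtain ⟨k, hk, hkb⟩ := exists_nonbad hm hf h5 hK hR
      refine ⟨k, hk, Finset.mem_filter.2 ⟨Finset.mem_univ _, ?_, hR.2 k hk, hkb⟩⟩
      rintro rfl
      exact hR.1 hk
  obtain ⟨S, hSf, hSmin⟩ := Finset.exists_min_image (Finset.univ.filter P)
    (fun S : Finset V => S.card) (by
      obtain ⟨S, hS⟩ := hex
      exact ⟨S, Finset.mem_filter.2 ⟨Finset.mem_univ _, hS⟩⟩)
  have hS := (hP S).1 (Finset.mem_filter.1 hSf).2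
  -- private cliques
  have hpriv : ∀ x ∈ S, ∃ K, G.IsNClique (m + 1) K ∧ Rem G K v ∧ x ∈ K ∧ ∀ t ∈ K, t ∈ S → t = x := by
    intro x hx
    by_contra hcon
    push Not at hcon
    have h1 : P (S.erase x) := by
      refine (hP _).2 ⟨fun z hz => hS.1 z (Finset.mem_of_mem_erase hz), ?_⟩
      intro K hK hR
      by_cases hxK : x ∈ K
      · obtain ⟨t, htK, htS, htx⟩ := hcon K hK hR hxK
        exact ⟨t, htK, Finset.mem_erase.2 ⟨htx, htS⟩⟩
      · obtain ⟨k, hk, hkS⟩ := hS.2 K hK hR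
        exact ⟨k, hk, Finset.mem_erase.2 ⟨fun e => hxK (e ▸ hk), hkS⟩⟩
    have h2 := hSmin _ (Finset.mem_filter.2 ⟨Finset.mem_univ _, h1⟩)
    rw [Finset.card_erase_of_mem hx] at h2
    have h3 : 0 < S.card := Finset.card_pos.2 ⟨x, hx⟩
    omega
  refine ⟨fun x => decide (G.Adj v x ∨ x ∈ S), ?_⟩
  intro T hT b hb
  cases b with
  | true =>
    have hb' : ∀ x ∈ T, G.Adj v x ∨ x ∈ S := fun x hx => of_decide_eq_true (hb x hx)
    have hvT : v ∉ T := by
      intro hvT
      rcases hb' v hvT with h | h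
      · exact G.loopless.irrefl v h
      · exact (hS.1 v h).1 rfl
    by_cases hex : ∃ s ∈ T, s ∈ S
    · obtain ⟨s, hsT, hsS⟩ := hex
      by_cases hex2 : ∃ s' ∈ T, s' ∈ S ∧ s' ≠ s
      · obtain ⟨s', hsT', hsS', hne⟩ := hex2
        obtain ⟨K, hK, hKR, hsK, hKu⟩ := hpriv s hsS
        obtain ⟨K', hK', hKR', hsK', hKu'⟩ := hpriv s' hsS'
        obtain ⟨K'', hK'', hKK⟩ := hE K K' T s s' hK hK' hT hKR hKR' hvT hsK hsT hsK' hsT'
          (Ne.symm hne)
          (by
            intro t ht htK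
            rcases hb' t ht with h | h
            · exact absurd h (hKR.2 t htK)
            · exact hKu t htK h)
          (by
            intro t ht htK
            rcases hb' t ht with h | h
            · exact absurd h (hKR'.2 t htK)
            · exact hKu' t htK h)
        obtain ⟨k, hk, hkS⟩ := hS.2 K'' hK'' ⟨by
            intro hv
            rcases (hKK v hv).1 with h | h
            · exact hKR.1 h
            · exact hKR'.1 h, by
            intro k hk
            rcases (hKK k hk).1 with h | h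
            · exact hKR.2 k h
            · exact hKR'.2 k h⟩
        rcases (hKK k hk).1 with h | h
        · exact (hKK k hk).2.1 (hKu k h hkS)
        · exact (hKK k hk).2.2 (hKu' k h hkS)
      · push Not at hex2
        refine (hS.1 s hsS).2.2 ⟨T.erase s, ?_, ?_, ?_⟩
        · refine ⟨hT.1.subset (by exact_mod_cast Finset.erase_subset _ _), ?_⟩
          rw [Finset.card_erase_of_mem hsT, hT.2]
          rfl
        · intro l hl
          rw [Finset.mem_erase] at hl
          rcases hb' l hl.2 with h | h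
          · exact h
          · exact absurd (hex2 l hl.2 h) hl.1
        · intro l hl
          rw [Finset.mem_erase] at hl
          exact hT.1 hsT hl.2 (Ne.symm hl.1)
    · refine hf _ (clique_insert hT (v := v) ?_)
      intro k hk
      rcases hb' k hk with h | h
      · exact h
      · exact absurd ⟨k, hk, h⟩ hex
  | false =>
    have hb' : ∀ x ∈ T, ¬ (G.Adj v x ∨ x ∈ S) := fun x hx => of_decide_eq_false (hb x hx)
    have hvT : v ∉ T := by
      intro hvT
      have hcard : 1 < T.card := by rw [hT.2]; omega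
      obtain ⟨a, ha, hav⟩ := Finset.exists_mem_ne hcard v
      exact hb' a ha (Or.inl (hT.1 hvT ha (Ne.symm hav)))
    obtain ⟨k, hk, hkS⟩ := hS.2 T hT ⟨hvT, fun k hk h => hb' k hk (Or.inl h)⟩
    exact hb' k hk (Or.inr hkS)

end Pool.Agent.H92.HM
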