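import Mathlib
import Pool.Agent.H92.TD.Conn
import Pool.Agent.H92.TD.Gen

/-!
MP_5aa732_co: minimal counterexamples without a large clique carrying a pendant path of length two, and
minimal counterexamples without a large clique anticomplete to an edge.
-/

set_option autoImplicit false
set_option linter.unusedSectionVars false
set_option linter.unusedVariables false

namespace Pool.Agent.H92.HM

open SimpleGraph Finset Pool.Agent.H92.TD

variable {V : Type} [Fintype V] {G : SimpleGraph V} {m : ℕ}

/-- For every clique `K` with at least `w - 2 d + 2` vertices and every vertex `z` without neighbour in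
`K`: a neighbour `y` of `z` with a neighbour in `K` has at most `d` non-neighbours in `K`. -/
def Tail {V : Type} (G : SimpleGraph V) (w d : ℕ) : Prop :=
  ∀ (K D : Finset V) (y z a : V), G.IsClique (K : Set V) → w + 2 ≤ K.card + 2 * d → z ∉ K →
    (∀ k ∈ K, ¬ G.Adj z k) → G.Adj z y → a ∈ K → G.Adj y a → D ⊆ K → (∀ k ∈ D, ¬ G.Adj y k) →
    D.card ≤ d

/-- For every clique `K` with `w` vertices and every vertex `z` without neighbour in `K`, a neighbour of
`z` has at most `d` non-neighbours in `K`. -/
def FarE {V : Type} (G : SimpleGraph V) (w d : ℕ) : Prop :=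
  ∀ (K D : Finset V) (y z : V), G.IsNClique w K → z ∉ K →
    (∀ k ∈ K, ¬ G.Adj z k) → G.Adj z y → D ⊆ K → (∀ k ∈ D, ¬ G.Adj y k) → D.card ≤ d

open Classical in
/-- non-neighbours of `y` in `K` -/
noncomputable def DD {V : Type} (G : SimpleGraph V) (K : Finset V) (y : V) : Finset V :=
  K.filter (fun k => ¬ G.Adj y k)

open Classical in
/-- the `(m+1)`-cliques without member or neighbour equal to `v` -/
noncomputable def KR {V : Type} [Fintype V] (G : SimpleGraph V) (m : ℕ) (v : V) : Finset (Finset V) :=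
  Finset.univ.filter (fun K => G.IsNClique (m + 1) K ∧ Rem G K v)

theorem mem_DD {K : Finset V} {y k : V} : k ∈ DD G K y ↔ k ∈ K ∧ ¬ G.Adj y k := by
  classical
  simp [DD]

theorem mem_KR {K : Finset V} {v : V} : K ∈ KR G m v ↔ G.IsNClique (m + 1) K ∧ Rem G K v := by
  classical
  simp [KR]

/-- two non-adjacent neighbours of `w` have nested neighbourhoods on a clique avoiding `N[w]` -/
theorem nest5 (h5 : C5free G) {K : Finset V} (hK : G.IsClique (K : Set V)) {w y q : V}
    (hR : Rem G K w) (hwy : G.Adj w y) (hwq : G.Adj w q) (hyq : ¬ G.Adj y q) {x x' : V}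
    (hx : x ∈ K) (hx' : x' ∈ K) (hqx : G.Adj q x) (hyx : ¬ G.Adj y x) (hyx' : G.Adj y x')
    (hqx' : ¬ G.Adj q x') : False := by
  have hne : x ≠ x' := fun e => hqx' (e ▸ hqx)
  exact h5 w q x x' y hwq hqx (hK hx hx' hne) hyx'.symm hwy.symm (hR.2 x hx) hqx'
    (fun h => hyx h.symm) (fun h => hR.2 x' hx' h.symm) hyq

theorem DD_sub (h5 : C5free G) {K : Finset V} (hK : G.IsClique (K : Set V)) {w y q : V}
    (hR : Rem G K w) (hwy : G.Adj w y) (hwq : G.Adj w q) (hyq : ¬ G.Adj y q)
    (hc : (DD G K q).card ≤ (DD G K y).card) : DD G K q ⊆ DD G K y := by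
  classical
  intro x hx
  by_contra hxy
  have hxq := mem_DD.1 hx
  have hyx : G.Adj y x := by
    by_contra hn
    exact hxy (mem_DD.2 ⟨hxq.1, hn⟩)
  have hex : ∃ x' ∈ DD G K y, x' ∉ DD G K q := by
    by_contra hcon
    push Not at hcon
    have h1 : DD G K y ⊂ DD G K q := by
      rw [Finset.ssubset_iff_of_subset (fun z hz => hcon z hz)]
      exact ⟨x, hx, hxy⟩
    have := Finset.card_lt_card h1
    omega
  obtain ⟨x', hx', hxq'⟩ := hex
  have hx'' := mem_DD.1 hx'
  have hqx' : G.Adj q x' := by
    by_contra hn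
    exact hxq' (mem_DD.2 ⟨hx''.1, hn⟩)
  exact nest5 h5 hK hR hwy hwq hyq hx''.1 hxq.1 hqx' hx''.2 hyx hxq.2

theorem card_Q_le (hf : G.CliqueFree (m + 2)) {K Q D : Finset V} (hK : G.IsNClique (m + 1) K)
    (hD : D ⊆ K) (hQ : G.IsClique (Q : Set V)) (hQK : ∀ q ∈ Q, q ∉ K)
    (hc : ∀ q ∈ Q, ∀ k ∈ K, k ∉ D → G.Adj q k) : Q.card ≤ D.card := by
  classical
  have hcl : G.IsClique ((Q ∪ (K \ D) : Finset V) : Set V) := by
    intro x hx y hy hxy
    rw [Finset.mem_coe, Finset.mem_union, Finset.mem_sdiff] at hx hy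
    rcases hx with hx | hx <;> rcases hy with hy | hy
    · exact hQ hx hy hxy
    · exact hc x hx y hy.1 hy.2
    · exact (hc y hy x hx.1 hx.2).symm
    · exact hK.1 hx.1 hy.1 hxy
  have h1 := card_le_of_clique hf hcl
  have hdis : Disjoint Q (K \ D) := by
    rw [Finset.disjoint_left]
    intro q hq hqK
    exact hQK q hq (Finset.mem_sdiff.1 hqK).1
  rw [Finset.card_union_of_disjoint hdis, Finset.card_sdiff_of_subset hD, hK.2] at h1
  have h2 := Finset.card_le_card hD
  rw [hK.2] at h2
  omega

theorem DD_card (K : Finset V) (v : V) [DecidablePred (fun k => G.Adj v k)] :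
    (K.filter (fun k => G.Adj v k)).card + (DD G K v).card = K.card := by
  classical
  have h1 : DD G K v = K.filter (fun k => ¬ G.Adj v k) := by
    ext x; rw [mem_DD, Finset.mem_filter]
  rw [h1]
  exact Finset.card_filter_add_card_filter_not _

/-- a vertex `y` with a neighbour `w` far from `K` and a neighbour in `K` -/
theorem DD_le {d : ℕ} (hd : 1 ≤ d) (hT : Tail G (m + 1) d) {K : Finset V}
    (hK : G.IsNClique (m + 1) K) {w y a : V}
    (hR : Rem G K w) (hwy : G.Adj w y) (ha : a ∈ K) (hya : G.Adj y a) :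
    (DD G K y).card ≤ d := by
  refine hT K (DD G K y) y w a hK.1 ?_ hR.1 hR.2 hwy ha hya (fun x hx => (mem_DD.1 hx).1)
    (fun x hx => (mem_DD.1 hx).2)
  rw [hK.2]
  omega

theorem step1 {d : ℕ} (h5 : C5free G) (hf : G.CliqueFree (m + 2)) (hd : 1 ≤ d)
    (hk : 3 * d ≤ m + 1) (hT : Tail G (m + 1) d) {v : V} {K : Finset V} (hK : G.IsNClique (m + 1) K)
    (hR : Rem G K v) {y : V} (hvy : G.Adj v y) {a : V} (ha : a ∈ K) (hya : G.Adj y a)
    (hmax : ∀ q, G.Adj v q → (∃ b ∈ K, G.Adj q b) → (DD G K q).card ≤ (DD G K y).card)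
    {K' : Finset V} (hK' : G.IsNClique (m + 1) K') (hR' : Rem G K' y) : Rem G K' v := by
  classical
  have hvK' : v ∉ K' := fun h => hR'.2 v h hvy.symm
  refine ⟨hvK', ?_⟩
  by_contra hcon
  push Not at hcon
  obtain ⟨k', hk', hvk'⟩ := hcon
  have hD' : (DD G K' v).card ≤ d := DD_le hd hT hK' hR' hvy.symm hk' hvk'
  have hDy : (DD G K y).card ≤ d := DD_le hd hT hK hR hvy ha hya
  have hQ1 := DD_card (G := G) K' v
  rw [hK'.2] at hQ1
  obtain ⟨Q, hQdef⟩ : ∃ Q, Q = K'.filter (fun k => G.Adj v k) := ⟨_, rfl⟩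
  rw [← hQdef] at hQ1
  have hQm : ∀ q, q ∈ Q ↔ q ∈ K' ∧ G.Adj v q := by
    intro q; rw [hQdef, Finset.mem_filter]
  obtain ⟨Q0, hQ0⟩ : ∃ Q0, Q0 = Q.filter (fun q => ¬ ∃ b ∈ K, G.Adj q b) := ⟨_, rfl⟩
  obtain ⟨Q1, hQ1d⟩ : ∃ Q1, Q1 = Q.filter (fun q => ∃ b ∈ K, G.Adj q b) := ⟨_, rfl⟩
  have hsum : Q1.card + Q0.card = Q.card := by
    rw [hQ0, hQ1d]
    exact Finset.card_filter_add_card_filter_not _
  have hm1 : ∀ q, q ∈ Q1 ↔ (q ∈ K' ∧ G.Adj v q) ∧ ∃ b ∈ K, G.Adj q b := by
    intro q; rw [hQ1d, Finset.mem_filter, hQm]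
  have hm0 : ∀ q, q ∈ Q0 ↔ (q ∈ K' ∧ G.Adj v q) ∧ ¬ ∃ b ∈ K, G.Adj q b := by
    intro q; rw [hQ0, Finset.mem_filter, hQm]
  have hQ1le : Q1.card ≤ (DD G K y).card := by
    refine card_Q_le hf hK (fun x hx => (mem_DD.1 hx).1) ?_ ?_ ?_
    · exact hK'.1.subset (fun x hx => ((hm1 x).1 (Finset.mem_coe.1 hx)).1.1)
    · intro q hq hqK
      exact hR.2 q hqK ((hm1 q).1 hq).1.2
    · intro q hq k hkK hkD
      have hq' := (hm1 q).1 hq
      have hsub := DD_sub h5 hK.1 hR hvy hq'.1.2 (hR'.2 q hq'.1.1) (hmax q hq'.1.2 hq'.2)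
      by_contra hn
      exact hkD (hsub (mem_DD.2 ⟨hkK, hn⟩))
  have hcl0 : ∀ T : Finset V, T ⊆ Q0 → G.IsClique (T : Set V) := by
    intro T hT0
    exact hK'.1.subset (fun x hx => ((hm0 x).1 (hT0 (Finset.mem_coe.1 hx))).1.1)
  rcases Q1.eq_empty_or_nonempty with he | ⟨q1, hq1⟩
  · rw [he, Finset.card_empty] at hsum
    have hvQ : v ∉ Q0 := fun hh => hvK' ((hm0 v).1 hh).1.1
    have hins := clique_insert (G := G) (v := v) (K := Q0) (n := Q0.card)
      ⟨hcl0 Q0 (Finset.Subset.refl _), rfl⟩ (fun k hkT => ((hm0 k).1 hkT).1.2)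
    have := hT (insert v Q0) Q0 y a v hins.1 (by rw [hins.2]; omega) ?_ ?_ hya.symm
      (Finset.mem_insert_self _ _) hvy.symm (Finset.subset_insert _ _)
      (fun k hkT => hR'.2 k ((hm0 k).1 hkT).1.1)
    · omega
    · intro hh
      rcases Finset.mem_insert.1 hh with rfl | hh
      · exact hR.1 ha
      · exact hR'.2 a ((hm0 a).1 hh).1.1 hya
    · intro k hkT hak
      rcases Finset.mem_insert.1 hkT with rfl | hkT
      · exact hR.2 a ha hak.symm
      · exact ((hm0 k).1 hkT).2 ⟨a, ha, hak.symm⟩
  · have hq1' := (hm1 q1).1 hq1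
    obtain ⟨b, hb, hqb⟩ := hq1'.2
    have hq1K : q1 ∉ K := fun h => hR.2 q1 h hq1'.1.2
    obtain ⟨c, hc, hqc⟩ := not_complete hf hK hq1K
    have hvQ : v ∉ Q0 := fun hh => hvK' ((hm0 v).1 hh).1.1
    have hins := clique_insert (G := G) (v := v) (K := Q0) (n := Q0.card)
      ⟨hcl0 Q0 (Finset.Subset.refl _), rfl⟩ (fun k hkT => ((hm0 k).1 hkT).1.2)
    have hq1n : ∀ k ∈ insert v Q0, G.Adj q1 k := by
      intro q hq
      rcases Finset.mem_insert.1 hq with rfl | hq
      · exact hq1'.1.2.symm
      · have h0 := (hm0 q).1 hq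
        refine hK'.1 hq1'.1.1 h0.1.1 ?_
        rintro rfl
        exact h0.2 hq1'.2
    have hins2 := clique_insert (v := q1) hins hq1n
    have hbn : ∀ k ∈ insert v Q0, ¬ G.Adj b k := by
      intro q hq hbq
      rcases Finset.mem_insert.1 hq with rfl | hq
      · exact hR.2 b hb hbq.symm
      · exact ((hm0 q).1 hq).2 ⟨b, hb, hbq.symm⟩
    have hcK : c ∉ insert q1 (insert v Q0) := by
      intro hh
      rcases Finset.mem_insert.1 hh with rfl | hh
      · exact hq1K hc
      · rcases Finset.mem_insert.1 hh with rfl | hh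
        · exact hR.1 hc
        · exact hR.2 c hc ((hm0 c).1 hh).1.2
    have := hT (insert q1 (insert v Q0)) (insert v Q0) b c q1 hins2.1 (by rw [hins2.2]; omega) hcK
      ?_ (hK.1 hc hb (fun e => hqc (e ▸ hqb))) (Finset.mem_insert_self _ _) hqb.symm
      (Finset.subset_insert _ _) hbn
    · rw [hins.2] at this
      omega
    · intro q hq hcq
      rcases Finset.mem_insert.1 hq with rfl | hq
      · exact hqc hcq.symm
      · rcases Finset.mem_insert.1 hq with rfl | hq
        · exact hR.2 c hc hcq.symm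
        · exact ((hm0 q).1 hq).2 ⟨c, hc, hcq.symm⟩

/-- no minimal counterexample without `K_{d+2}` carrying a pendant path of length two -/
theorem tail_contra {d : ℕ} (h : MinCE G m) (hd : 1 ≤ d) (hk : 3 * d ≤ m + 1) (hT : Tail G (m + 1) d) :
    False := by
  classical
  obtain ⟨b0, K0, hK0, _⟩ := h.bad (fun _ => true)
  obtain ⟨x0, hx0⟩ : K0.Nonempty := Finset.card_pos.1 (by rw [hK0.2]; omega)
  obtain ⟨v0, _, hv0⟩ := Finset.exists_min_image (Finset.univ : Finset V)
    (fun v => (KR G m v).card) ⟨x0, Finset.mem_univ _⟩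
  obtain ⟨K, hK, hR0⟩ := exists_remote h v0
  have hKne : K.Nonempty := Finset.card_pos.1 (by rw [hK.2]; omega)
  obtain ⟨dist, hd0, hd1, hd2⟩ := exists_layer (connected_of h) K hKne
  have main : ∀ n : ℕ, ∀ v : V, dist v = n → (∀ u, (KR G m v).card ≤ (KR G m u).card) →
      Rem G K v → False := by
    intro n
    induction n using Nat.strong_induction_on with
    | _ n ih =>
      intro v hvn hvmin hR
      -- no neighbour of v has a neighbour in K
      have hM : ∀ q, G.Adj v q → ∀ b ∈ K, ¬ G.Adj q b := by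
        intro q hvq b hb hqb
        obtain ⟨y, hy, hymax⟩ := Finset.exists_max_image
          ((Finset.univ : Finset V).filter (fun y => G.Adj v y ∧ ∃ b ∈ K, G.Adj y b))
          (fun y => (DD G K y).card) ⟨q, Finset.mem_filter.2 ⟨Finset.mem_univ _, hvq, b, hb, hqb⟩⟩
        rw [Finset.mem_filter] at hy
        obtain ⟨_, hvy, a, ha, hya⟩ := hy
        have hsub : KR G m y ⊂ KR G m v := by
          rw [Finset.ssubset_iff_of_subset]
          · refine ⟨K, mem_KR.2 ⟨hK, hR⟩, ?_⟩
            intro hKy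
            exact (mem_KR.1 hKy).2.2 a ha hya
          · intro K' hK'
            rw [mem_KR] at hK'
            refine mem_KR.2 ⟨hK'.1, step1 h.c5 h.free hd hk hT hK hR hvy ha hya ?_ hK'.1 hK'.2⟩
            intro q' hvq' hex
            exact hymax q' (Finset.mem_filter.2 ⟨Finset.mem_univ _, hvq', hex⟩)
        have h1 := Finset.card_lt_card hsub
        have h2 := hvmin y
        omega
      have hv0' : dist v ≠ 0 := fun e => hR.1 ((hd0 v).1 e)
      obtain ⟨y, hvy, hdy⟩ := hd2 v hv0'
      have hyK : y ∉ K := fun hy => hR.2 y hy hvy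
      have hRy : Rem G K y := ⟨hyK, hM y hvy⟩
      by_cases hymin : (KR G m y).card ≤ (KR G m v).card
      · exact ih (dist y) (by omega) y rfl (fun u => hymin.trans (hvmin u)) hRy
      · have hex : ∃ K' ∈ KR G m y, K' ∉ KR G m v := by
          by_contra hcon
          push Not at hcon
          exact hymin (Finset.card_le_card hcon)
        obtain ⟨K', hK'y, hK'v⟩ := hex
        rw [mem_KR] at hK'y
        obtain ⟨hK', hR'⟩ := hK'y
        have hvK' : v ∉ K' := fun hh => hR'.2 v hh hvy.symm
        have hvk : ∃ k' ∈ K', G.Adj v k' := by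
          by_contra hcon
          push Not at hcon
          exact hK'v (mem_KR.2 ⟨hK', hvK', hcon⟩)
        obtain ⟨k', hk', hvk'⟩ := hvk
        have hD' : (DD G K' v).card ≤ d := DD_le hd hT hK' hR' hvy.symm hk' hvk'
        have hdy0 : dist y ≠ 0 := fun e => hyK ((hd0 y).1 e)
        obtain ⟨p, hyp, hdp⟩ := hd2 y hdy0
        have hvp : ¬ G.Adj v p := fun hh => by have := hd1 v p hh; omega
        have hpK' : p ∉ K' := fun hh => hR'.2 p hh hyp
        have hQ1 := DD_card (G := G) K' v
        rw [hK'.2] at hQ1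
        by_cases hpk : ∃ k ∈ K', G.Adj p k
        · obtain ⟨k2, hk2, hpk2⟩ := hpk
          have hDp : (DD G K' p).card ≤ d := DD_le hd hT hK' hR' hyp hk2 hpk2
          -- the common neighbours of v and p in K'
          have hQ2 : ∃ T ⊆ K', m + 1 ≤ T.card + d ∧ (∀ q ∈ T, G.Adj v q) ∧ ∀ q ∈ T, G.Adj p q := by
            rcases le_total (DD G K' v).card (DD G K' p).card with hle | hle
            · have hsub := DD_sub h.c5 hK'.1 hR' hyp hvy.symm (fun e => hvp e.symm) hle
              have hQ3 := DD_card (G := G) K' p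
              rw [hK'.2] at hQ3
              refine ⟨K'.filter (fun k => G.Adj p k), Finset.filter_subset _ _, by omega, ?_,
                fun x hx => (Finset.mem_filter.1 hx).2⟩
              intro q hq
              have h1 := Finset.mem_filter.1 hq
              by_contra hn
              exact (mem_DD.1 (hsub (mem_DD.2 ⟨h1.1, hn⟩))).2 h1.2
            · have hsub := DD_sub h.c5 hK'.1 hR' hvy.symm hyp hvp hle
              refine ⟨K'.filter (fun k => G.Adj v k), Finset.filter_subset _ _, by omega,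
                fun x hx => (Finset.mem_filter.1 hx).2, ?_⟩
              intro q hq
              have h1 := Finset.mem_filter.1 hq
              by_contra hn
              exact (mem_DD.1 (hsub (mem_DD.2 ⟨h1.1, hn⟩))).2 h1.2
          obtain ⟨T, hTK, hTc, hTv, hTp⟩ := hQ2
          have hqd : ∀ q ∈ T, dist v ≤ dist q + 1 := fun q hq => hd1 v q (hTv q hq)
          have hpK : p ∉ K := fun hh => hRy.2 p hh hyp
          have hdp0 : dist p ≠ 0 := fun e => hpK ((hd0 p).1 e)
          obtain ⟨r, hpr, hdr⟩ := hd2 p hdp0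
          have hrq : ∀ q ∈ T, ¬ G.Adj r q := by
            intro q hq hh
            have h1 := hqd q hq
            have h2 := hd1 q r hh.symm
            omega
          have hins := clique_insert (G := G) (v := p) (K := T) (n := T.card)
            ⟨hK'.1.subset (by exact_mod_cast hTK), rfl⟩ hTp
          have fin : ∀ s, G.Adj r s → ¬ G.Adj p s → (∀ q ∈ T, ¬ G.Adj s q) → s ∉ T → s ≠ p → False := by
            intro s hrs hps hsT hsT' hsp
            have := hT (insert p T) T r s p hins.1 (by rw [hins.2]; omega) ?_ ?_ hrs.symm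
              (Finset.mem_insert_self _ _) hpr.symm (Finset.subset_insert _ _) hrq
            · omega
            · intro hh
              rcases Finset.mem_insert.1 hh with hh | hh
              · exact hsp hh
              · exact hsT' hh
            · intro q hq hh
              rcases Finset.mem_insert.1 hq with rfl | hq
              · exact hps hh.symm
              · exact hsT q hq hh
          by_cases hr0 : dist r = 0
          · have hrK : r ∈ K := (hd0 r).1 hr0
            obtain ⟨c, hc, hpc⟩ := not_complete h.free hK hpK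
            have hc0 : dist c = 0 := (hd0 c).2 hc
            refine fin c (hK.1 hrK hc (fun e => hpc (e ▸ hpr))) hpc ?_ ?_ ?_
            · intro q hq hh
              have h1 := hqd q hq
              have h2 := hd1 q c hh.symm
              omega
            · intro hh
              have h1 := hqd c hh
              omega
            · rintro rfl
              exact hpK hc
          · obtain ⟨s, hrs, hds⟩ := hd2 r hr0
            refine fin s hrs ?_ ?_ ?_ ?_
            · intro hh
              have := hd1 p s hh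
              omega
            · intro q hq hh
              have h1 := hqd q hq
              have h2 := hd1 q s hh.symm
              omega
            · intro hh
              have h1 := hqd s hh
              omega
            · rintro rfl
              omega
        · push Not at hpk
          have hins := clique_insert (G := G) (v := v) (K := K'.filter (fun k => G.Adj v k))
            (n := (K'.filter (fun k => G.Adj v k)).card)
            ⟨hK'.1.subset (fun x hx => (Finset.mem_filter.1 (Finset.mem_coe.1 hx)).1), rfl⟩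
            (fun q hq => (Finset.mem_filter.1 hq).2)
          have := hT (insert v (K'.filter (fun k => G.Adj v k))) (K'.filter (fun k => G.Adj v k)) y p v
            hins.1 (by rw [hins.2]; omega) ?_ ?_ hyp.symm (Finset.mem_insert_self _ _) hvy.symm
            (Finset.subset_insert _ _) (fun q hq => hR'.2 q (Finset.mem_filter.1 hq).1)
          · omega
          · intro hh
            rcases Finset.mem_insert.1 hh with rfl | hh
            · omega
            · exact hpK' (Finset.mem_filter.1 hh).1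
          · intro q hq hh
            rcases Finset.mem_insert.1 hq with rfl | hq
            · exact hvp hh.symm
            · exact hpk q (Finset.mem_filter.1 hq).1 hh
  exact main (dist v0) v0 rfl (fun u => hv0 u (Finset.mem_univ _)) hR0

/-- no minimal counterexample without a `(d+1)`-clique anticomplete to an edge -/
theorem far_contra {d : ℕ} (h : MinCE G m) (hd : 1 ≤ d) (hk : 2 * d ≤ m) (hF : FarE G (m + 1) d) :
    False := by
  classical
  obtain ⟨b0, K0, hK0, _⟩ := h.bad (fun _ => true)
  obtain ⟨v, hv⟩ : K0.Nonempty := Finset.card_pos.1 (by rw [hK0.2]; omega)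
  obtain ⟨K, hK, hR⟩ := exists_remote h v
  obtain ⟨c, hc⟩ := h.min v
  obtain ⟨L, hL, hLc⟩ := exists_clique_NC h hc true
  obtain ⟨l, hl⟩ : L.Nonempty := Finset.card_pos.1 (by rw [hLc.2]; exact h.one)
  obtain ⟨y, hy, hymax⟩ := Finset.exists_max_image (Nb G v) (fun y => (DD G K y).card)
    ⟨l, NC_sub (hL hl)⟩
  rw [mem_Nb] at hy
  obtain ⟨K', hK', hR'⟩ := exists_remote h y
  have h1 : (DD G K' v).card ≤ d := hF K' _ v y hK' hR'.1 hR'.2 hy.symm
    (fun x hx => (mem_DD.1 hx).1) (fun x hx => (mem_DD.1 hx).2)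
  have h2 : (DD G K y).card ≤ d := hF K _ y v hK hR.1 hR.2 hy
    (fun x hx => (mem_DD.1 hx).1) (fun x hx => (mem_DD.1 hx).2)
  have h3 := DD_card (G := G) K' v
  rw [hK'.2] at h3
  have h4 : (K'.filter (fun k => G.Adj v k)).card ≤ (DD G K y).card := by
    refine card_Q_le h.free hK (fun x hx => (mem_DD.1 hx).1) ?_ ?_ ?_
    · exact hK'.1.subset (fun x hx => (Finset.mem_filter.1 (Finset.mem_coe.1 hx)).1)
    · intro q hq hqK
      exact hR.2 q hqK (Finset.mem_filter.1 hq).2
    · intro q hq k hkK hkD
      have hq' := Finset.mem_filter.1 hq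
      have hsub := DD_sub h.c5 hK.1 hR hy hq'.2 (hR'.2 q hq'.1) (hymax q (mem_Nb.2 hq'.2))
      by_contra hn
      exact hkD (hsub (mem_DD.2 ⟨hkK, hn⟩))
  omega

end Pool.Agent.H92.HM
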