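import Mathlib
import Pool.Agent.H92.TD.Asm2
import Pool.Agent.H92.TP.PAsm
import Pool.Agent.H92.HM.Ham
import Pool.Agent.H92.HM.Exch

/-!
MP_5aa732_co: assembly.  `Good G H`: the vertex set `H` satisfies one of four conditions.
-/

set_option autoImplicit false
set_option linter.unusedSectionVars false
set_option linter.unusedVariables false

namespace Pool.Agent.H92.HM

open SimpleGraph Finset Pool.Agent.H92.TD Pool.Agent.H92.TP

/-- `w` is the clique number of `G[H]`. -/
def Omega {V : Type} (G : SimpleGraph V) (H : Finset V) (w : ℕ) : Prop :=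
  (∃ K : Finset V, K ⊆ H ∧ G.IsNClique w K) ∧
    ∀ K : Finset V, K ⊆ H → G.IsClique (K : Set V) → K.card ≤ w

/-- `x` is neither in `K` nor adjacent to a vertex of `K`. -/
def Misses {V : Type} (G : SimpleGraph V) (K : Finset V) (x : V) : Prop :=
  x ∉ K ∧ ∀ k ∈ K, ¬ G.Adj x k

/-- (A) some vertex of `H` has non-neighbours in `H` without induced path on four vertices. -/
def CondA {V : Type} (G : SimpleGraph V) (H : Finset V) : Prop :=
  ∃ v ∈ H, IsEmpty (SimpleGraph.pathGraph 4 ↪g G.induce {x : V | x ∈ H ∧ x ≠ v ∧ ¬ G.Adj v x})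

/-- (B) exchange condition for the maximum cliques missed by a vertex. -/
def CondB {V : Type} (G : SimpleGraph V) (H : Finset V) (w : ℕ) : Prop :=
  ∃ v ∈ H, ∀ (K K' T : Finset V) (x x' : V),
    K ⊆ H → K' ⊆ H → T ⊆ H → G.IsNClique w K → G.IsNClique w K' → G.IsNClique w T →
    Misses G K v → Misses G K' v → v ∉ T →
    x ∈ K → x ∈ T → x' ∈ K' → x' ∈ T → x ≠ x' → (∀ t ∈ T, t ∈ K → t = x) →
    (∀ t ∈ T, t ∈ K' → t = x') →
    ∃ K'' : Finset V, G.IsNClique w K'' ∧ ∀ k ∈ K'', (k ∈ K ∨ k ∈ K') ∧ k ≠ x ∧ k ≠ x'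

/-- (C) hammer condition with parameter `d`. -/
def CondC {V : Type} (G : SimpleGraph V) (H : Finset V) (w : ℕ) : Prop :=
  ∃ d : ℕ, 1 ≤ d ∧ 3 * d ≤ w ∧ ∀ (K D : Finset V) (y z a : V),
    K ⊆ H → y ∈ H → z ∈ H → G.IsClique (K : Set V) → w + 2 ≤ K.card + 2 * d → Misses G K z →
    G.Adj z y → a ∈ K → G.Adj y a → D ⊆ K → (∀ k ∈ D, ¬ G.Adj y k) → D.card ≤ d

/-- (D) no edge far from much of a maximum clique. -/
def CondD {V : Type} (G : SimpleGraph V) (H : Finset V) (w : ℕ) : Prop :=
  ∃ d : ℕ, 1 ≤ d ∧ 2 * d + 1 ≤ w ∧ ∀ (K D : Finset V) (y z : V),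
    K ⊆ H → y ∈ H → z ∈ H → G.IsNClique w K → Misses G K z →
    G.Adj z y → D ⊆ K → (∀ k ∈ D, ¬ G.Adj y k) → D.card ≤ d

variable {V₀ : Type} {G₀ : SimpleGraph V₀}

section transfer

variable {V : Type} [Fintype V] {G : SimpleGraph V} (f : G ↪g G₀)

theorem map_clique {K : Finset V} (hK : G.IsClique (K : Set V)) :
    G₀.IsClique ((K.map f.toEmbedding : Finset V₀) : Set V₀) := by
  intro x hx y hy hxy
  rw [Finset.mem_coe, Finset.mem_map] at hx hy
  obtain ⟨x', hx', rfl⟩ := hx
  obtain ⟨y', hy', rfl⟩ := hy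
  exact f.map_rel_iff.2 (hK hx' hy' (fun e => hxy (by rw [e])))

theorem map_nclique {n : ℕ} {K : Finset V} (hK : G.IsNClique n K) :
    G₀.IsNClique n (K.map f.toEmbedding) :=
  ⟨map_clique f hK.1, by rw [Finset.card_map, hK.2]⟩

theorem map_sub (K : Finset V) : K.map f.toEmbedding ⊆ (Finset.univ : Finset V).map f.toEmbedding :=
  Finset.map_subset_map.2 (Finset.subset_univ _)

theorem back_clique {K : Finset V₀} (hKs : K ⊆ (Finset.univ : Finset V).map f.toEmbedding)
    (hK : G₀.IsClique (K : Set V₀)) :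
    ∃ K' : Finset V, K = K'.map f.toEmbedding ∧ G.IsClique (K' : Set V) := by
  classical
  obtain ⟨K', hK'⟩ : ∃ K' : Finset V, K' = Finset.univ.filter (fun x => f x ∈ K) := ⟨_, rfl⟩
  have hm : ∀ x, x ∈ K' ↔ f x ∈ K := by
    intro x; rw [hK', Finset.mem_filter]; simp
  refine ⟨K', ?_, ?_⟩
  · ext x
    rw [Finset.mem_map]
    constructor
    · intro hx
      have := hKs hx
      rw [Finset.mem_map] at this
      obtain ⟨y, _, rfl⟩ := this
      exact ⟨y, (hm y).2 hx, rfl⟩
    · rintro ⟨y, hy, rfl⟩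
      exact (hm y).1 hy
  · intro x hx y hy hxy
    exact f.map_rel_iff.1 (hK ((hm x).1 hx) ((hm y).1 hy) (fun e => hxy (f.injective e)))

theorem map_misses {K : Finset V} {v : V} (h : v ∉ K ∧ ∀ k ∈ K, ¬ G.Adj v k) :
    Misses G₀ (K.map f.toEmbedding) (f v) := by
  refine ⟨?_, ?_⟩
  · intro hv
    rw [Finset.mem_map] at hv
    obtain ⟨x, hx, hxv⟩ := hv
    have : x = v := f.injective hxv
    exact h.1 (this ▸ hx)
  · intro k hk hadj
    rw [Finset.mem_map] at hk
    obtain ⟨x, hx, rfl⟩ := hk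
    exact h.2 x hx (f.map_rel_iff.1 hadj)

theorem omega_img {m : ℕ} (hf : G.CliqueFree (m + 2)) (hK : ∃ K : Finset V, G.IsNClique (m + 1) K) :
    Omega G₀ ((Finset.univ : Finset V).map f.toEmbedding) (m + 1) := by
  obtain ⟨L, hL⟩ := hK
  refine ⟨⟨_, map_sub f L, map_nclique f hL⟩, ?_⟩
  intro K hKs hKc
  obtain ⟨K', rfl, hK'⟩ := back_clique f hKs hKc
  rw [Finset.card_map]
  exact card_le_of_clique hf hK'

theorem mem_img (x : V) : f x ∈ (Finset.univ : Finset V).map f.toEmbedding :=
  Finset.mem_map.2 ⟨x, Finset.mem_univ _, rfl⟩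

end transfer

/-- the four conditions, for a set with clique number `w` -/
def Good {V : Type} (G : SimpleGraph V) (H : Finset V) (w : ℕ) : Prop :=
  CondA G H ∨ CondB G H w ∨ CondC G H w ∨ CondD G H w

/-- The induction for a class closed under vertex deletion without minimal counterexample. -/
theorem core_gen2 (m : ℕ) (hm : 1 ≤ m) (P : ∀ V : Type, SimpleGraph V → Prop)
    (hdel : ∀ (V : Type) [Fintype V] (G : SimpleGraph V) (z : V), P V G →
      P _ (G.induce ({z}ᶜ : Set V)))
    (hcl : ∀ (V : Type) [Fintype V] (G : SimpleGraph V), P V G → MinCE G m → False) :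
    ∀ (V : Type) [Fintype V] (G : SimpleGraph V),
      G.CliqueFree (m + 2) → C5free G → P V G →
      ∃ c : V → Bool, ∀ K : Finset V, G.IsNClique (m + 1) K → ∀ b : Bool,
        ¬ ∀ x ∈ K, c x = b := by
  have main : ∀ n : ℕ, ∀ (V : Type) [Fintype V] (G : SimpleGraph V), Fintype.card V = n →
      G.CliqueFree (m + 2) → C5free G → P V G →
      ∃ c : V → Bool, ∀ K : Finset V, G.IsNClique (m + 1) K → ∀ b : Bool,
        ¬ ∀ x ∈ K, c x = b := by
    intro n
    induction n using Nat.strong_induction_on with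
    | _ n ih =>
      intro V _ G hn hf h5 hP
      classical
      by_contra hcon
      push Not at hcon
      have hbad : ∀ c : V → Bool, ∃ b : Bool, ∃ K : Finset V, G.IsNClique (m + 1) K ∧
          ∀ x ∈ K, c x = b := by
        intro c
        obtain ⟨K, hK, b, hb⟩ := hcon c
        exact ⟨b, K, hK, hb⟩
      have hmin : ∀ z : V, ∃ c : V → Bool, St G m c z := by
        intro z
        apply gen_min z
        have hlt : Fintype.card ↥({z}ᶜ : Set V) < n := by
          rw [← hn]
          exact Fintype.card_subtype_lt (x := z) (by simp)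
        exact ih _ hlt ↥({z}ᶜ : Set V) (G.induce ({z}ᶜ : Set V)) rfl
          (hf.comap ⟨(SimpleGraph.Embedding.induce _).toCopy⟩) (c5free_induce _ h5)
          (hdel V G z hP)
      exact hcl V G hP ⟨hm, hf, hbad, hmin, h5⟩
  intro V _ G hf h5 hP
  exact main _ V G rfl hf h5 hP

theorem hm_core [Fintype V₀] (S₀ : Finset V₀) (m : ℕ) (hm : 1 ≤ m)
    (hG : ∀ H : Finset V₀, H ⊆ S₀ → Omega G₀ H (m + 1) →
      Good G₀ H (m + 1) ∨ (m = 1 ∧ OddHoleFree G₀))
    (V : Type) [Fintype V] (G : SimpleGraph V) (hf : G.CliqueFree (m + 2)) (hG5 : C5free G)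
    (hemb : ∃ f : G ↪g G₀, ∀ x, f x ∈ S₀) :
    ∃ c : V → Bool, ∀ K : Finset V, G.IsNClique (m + 1) K → ∀ b : Bool, ¬ ∀ x ∈ K, c x = b := by
  classical
  refine core_gen2 m hm (fun V G => ∃ f : G ↪g G₀, ∀ x, f x ∈ S₀) ?_ ?_ V G hf hG5 hemb
  · rintro V _ G z ⟨f, hfS⟩
    exact ⟨(SimpleGraph.Embedding.induce _).trans f, fun x => hfS _⟩
  · rintro V _ G ⟨f, hfS⟩ hM
    obtain ⟨b0, K0, hK0, _⟩ := hM.bad (fun _ => true)
    rcases hG ((Finset.univ : Finset V).map f.toEmbedding) (by
          intro x hx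
          rw [Finset.mem_map] at hx
          obtain ⟨y, _, rfl⟩ := hx
          exact hfS y) (omega_img f hM.free ⟨K0, hK0⟩) with hgood | ⟨hm1, ho⟩
    · rcases hgood with hA | hB | hC | hD
      · obtain ⟨v, hv, hE⟩ := hA
        rw [Finset.mem_map] at hv
        obtain ⟨v, _, rfl⟩ := hv
        obtain ⟨c, hc⟩ := col_of_noP4 hM.one hM.free hM.c5 v (by
          intro a b c d ha hb hc hd nva nvb nvc nvd nac nbd nad hab hbc hcd hac hbd had
          have key : ∀ x, x ≠ v → ¬ G.Adj v x →
              f x ∈ {x : V₀ | x ∈ (Finset.univ : Finset V).map f.toEmbedding ∧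
                x ≠ f.toEmbedding v ∧ ¬ G₀.Adj (f.toEmbedding v) x} := by
            intro x hx hvx
            exact ⟨mem_img f x, fun e => hx (f.injective e), fun e => hvx (f.map_rel_iff.1 e)⟩
          exact noP4_of_isEmpty hE (key a ha nva) (key b hb nvb) (key c hc nvc) (key d hd nvd)
            (fun e => nac (f.injective e)) (fun e => nbd (f.injective e))
            (fun e => nad (f.injective e)) (f.map_rel_iff.2 hab) (f.map_rel_iff.2 hbc)
            (f.map_rel_iff.2 hcd) (fun e => hac (f.map_rel_iff.1 e))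
            (fun e => hbd (f.map_rel_iff.1 e)) (fun e => had (f.map_rel_iff.1 e)))
        obtain ⟨b, K, hK, hb⟩ := hM.bad c
        exact hc K hK b hb
      · obtain ⟨v, hv, hE⟩ := hB
        rw [Finset.mem_map] at hv
        obtain ⟨v, _, rfl⟩ := hv
        obtain ⟨c, hc⟩ := exch_col hM.one hM.free hM.c5 v (by
          intro K K' T x x' hK hK' hT hKv hK'v hvT hxK hxT hxK' hxT' hne hu hu'
          have mm : ∀ {S : Finset V} {y : V}, y ∈ S → f y ∈ S.map f.toEmbedding :=
            fun {S y} hy => Finset.mem_map.2 ⟨y, hy, rfl⟩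
          have mm' : ∀ {S : Finset V} {y : V}, f y ∈ S.map f.toEmbedding → y ∈ S := by
            intro S y hy
            rw [Finset.mem_map] at hy
            obtain ⟨z, hz, hzy⟩ := hy
            exact (f.injective hzy) ▸ hz
          obtain ⟨K'', hK'', hKK⟩ := hE (K.map f.toEmbedding) (K'.map f.toEmbedding)
            (T.map f.toEmbedding) (f x) (f x') (map_sub f K) (map_sub f K') (map_sub f T)
            (map_nclique f hK) (map_nclique f hK') (map_nclique f hT) (map_misses f hKv)
            (map_misses f hK'v) (fun h => hvT (mm' h)) (mm hxK) (mm hxT) (mm hxK') (mm hxT')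
            (fun e => hne (f.injective e))
            (by
              intro t ht htK
              rw [Finset.mem_map] at ht
              obtain ⟨t, ht, rfl⟩ := ht
              exact congrArg f (hu t ht (mm' htK)))
            (by
              intro t ht htK
              rw [Finset.mem_map] at ht
              obtain ⟨t, ht, rfl⟩ := ht
              exact congrArg f (hu' t ht (mm' htK)))
          have hsub : K'' ⊆ (Finset.univ : Finset V).map f.toEmbedding := by
            intro k hk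
            rcases (hKK k hk).1 with h | h
            · exact map_sub f K h
            · exact map_sub f K' h
          obtain ⟨L, rfl, hL⟩ := back_clique f hsub hK''.1
          refine ⟨L, ⟨hL, by have := hK''.2; rwa [Finset.card_map] at this⟩, ?_⟩
          intro k hk
          have h3 := hKK (f k) (mm hk)
          refine ⟨?_, fun e => h3.2.1 (by rw [e]), fun e => h3.2.2 (by rw [e])⟩
          rcases h3.1 with h | h
          · exact Or.inl (mm' h)
          · exact Or.inr (mm' h))
        obtain ⟨b, K, hK, hb⟩ := hM.bad c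
        exact hc K hK b hb
      · obtain ⟨d, hd, hdw, hE⟩ := hC
        refine tail_contra hM hd hdw ?_
        intro K D y z a hK hc hzK hz hzy ha hya hDK hDy
        have := hE (K.map f.toEmbedding) (D.map f.toEmbedding) (f y) (f z) (f a) (map_sub f K)
          (mem_img f y) (mem_img f z) (map_clique f hK) (by rw [Finset.card_map]; exact hc)
          (map_misses f ⟨hzK, hz⟩) (f.map_rel_iff.2 hzy) (Finset.mem_map.2 ⟨a, ha, rfl⟩)
          (f.map_rel_iff.2 hya) (Finset.map_subset_map.2 hDK) (by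
            intro k hk hadj
            rw [Finset.mem_map] at hk
            obtain ⟨k, hk, rfl⟩ := hk
            exact hDy k hk (f.map_rel_iff.1 hadj))
        rwa [Finset.card_map] at this
      · obtain ⟨d, hd, hdw, hE⟩ := hD
        refine far_contra hM hd (by omega) ?_
        intro K D y z hK hzK hz hzy hDK hDy
        have := hE (K.map f.toEmbedding) (D.map f.toEmbedding) (f y) (f z) (map_sub f K)
          (mem_img f y) (mem_img f z) (map_nclique f hK)
          (map_misses f ⟨hzK, hz⟩) (f.map_rel_iff.2 hzy) (Finset.map_subset_map.2 hDK) (by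
            intro k hk hadj
            rw [Finset.mem_map] at hk
            obtain ⟨k, hk, rfl⟩ := hk
            exact hDy k hk (f.map_rel_iff.1 hadj))
        rwa [Finset.card_map] at this
    · subst hm1
      have ho' : OddHoleFree G := by
        intro k hk
        refine ⟨fun g => (ho k hk).false (g.trans f)⟩
      obtain ⟨c, hc⟩ := two_col hM.free ho'
      obtain ⟨b, K, hK, hb⟩ := hM.bad c
      have hcard : 1 < K.card := by rw [hK.2]; omega
      obtain ⟨x, hx, y, hy, hxy⟩ := Finset.one_lt_card.1 hcard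
      exact hc x y (hK.1 hx hy hxy) ((hb x hx).trans (hb y hy).symm)

/-- The 2-division of one vertex set. -/
theorem hm_div [DecidableEq V₀] [Fintype V₀] (h5 : C5free G₀) (S : Finset V₀) (w : ℕ) (hw2 : 2 ≤ w)
    (hw : Omega G₀ S w)
    (hG : ∀ H : Finset V₀, H ⊆ S → Omega G₀ H w → Good G₀ H w ∨ (w = 2 ∧ OddHoleFree G₀)) :
    ∃ A : Finset V₀, A ⊆ S ∧
      (∀ T : Finset V₀, T ⊆ A → G₀.IsClique (T : Set V₀) →
          ∃ T' : Finset V₀, T' ⊆ S ∧ G₀.IsClique (T' : Set V₀) ∧ T.card < T'.card) ∧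
      (∀ T : Finset V₀, T ⊆ S \ A → G₀.IsClique (T : Set V₀) →
          ∃ T' : Finset V₀, T' ⊆ S ∧ G₀.IsClique (T' : Set V₀) ∧ T.card < T'.card) := by
  refine asm_back_gen (fun _ _ => True) S ?_ ?_
  · rintro m hm hf ⟨T, hT, hTc⟩
    obtain ⟨⟨K, hK, hKc⟩, hmax⟩ := hw
    have hwm : w = m + 1 := by
      have h1 := hmax T hT hTc.1
      rw [hTc.2] at h1
      obtain ⟨K', hK', _⟩ := asm_lift (s := (S : Set V₀)) hKc (fun x hx => by exact_mod_cast hK hx)
      have h2 := card_le_of_clique hf hK'.1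
      rw [hK'.2] at h2
      omega
    subst hwm
    refine hm_core S m hm ?_ _ _ hf (c5free_induce _ h5)
      ⟨SimpleGraph.Embedding.induce _, fun x => by exact_mod_cast x.2⟩
    intro H hH hHw
    rcases hG H hH hHw with h | ⟨h, ho⟩
    · exact Or.inl h
    · exact Or.inr ⟨by omega, ho⟩
  · obtain ⟨⟨K, hK, hKc⟩, _⟩ := hw
    have h1 : 1 < K.card := by rw [hKc.2]; omega
    obtain ⟨x, hx, y, hy, hxy⟩ := Finset.one_lt_card.1 h1
    exact ⟨x, hK hx, y, hK hy, hKc.1 hx hy hxy⟩

end Pool.Agent.H92.HM
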