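import Mathlib
import Pool.Agent.H92.HM.HFin

/-!
MP_5aa732_co: hammer-free graphs satisfy condition (C).
-/

set_option autoImplicit false
set_option linter.unusedSectionVars false
set_option linter.unusedVariables false

namespace Pool.Agent.H92.HM

open SimpleGraph Finset Pool.Agent.H92.TD Pool.Agent.H92.TP

/-- The hammer: triangle `0, 1, 2` and path `2, 3, 4`. -/
def hammer : SimpleGraph (Fin 5) :=
  SimpleGraph.fromEdgeSet {s(0, 1), s(0, 2), s(1, 2), s(2, 3), s(3, 4)}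

variable {V : Type} {G : SimpleGraph V}

theorem no_hammer (h : IsEmpty (hammer ↪g G)) {a b c y z : V} (hbc : G.Adj b c) (hba : G.Adj b a)
    (hca : G.Adj c a) (hay : G.Adj a y) (hyz : G.Adj y z) (nby : ¬ G.Adj b y) (nbz : ¬ G.Adj b z)
    (ncy : ¬ G.Adj c y) (ncz : ¬ G.Adj c z) (naz : ¬ G.Adj a z) : False := by
  have e1 : b ≠ c := G.ne_of_adj hbc
  have e2 : b ≠ a := G.ne_of_adj hba
  have e3 : c ≠ a := G.ne_of_adj hca
  have e4 : a ≠ y := G.ne_of_adj hay
  have e5 : y ≠ z := G.ne_of_adj hyz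
  have e6 : b ≠ y := fun e => nby (by rw [e] at hba ⊢; exact absurd (e ▸ hba) (fun _ => ncy (by rw [← e]; exact hbc.symm)))
  have e7 : b ≠ z := fun e => nby (by rw [e]; exact hyz.symm)
  have e8 : c ≠ y := fun e => nby (by rw [← e]; exact hbc)
  have e9 : c ≠ z := fun e => ncy (by rw [e]; exact hyz.symm)
  have e10 : a ≠ z := fun e => nbz (by rw [← e]; exact hba)
  let f : Fin 5 → V := ![b, c, a, y, z]
  have hf : Function.Injective f := by
    intro i j hij
    fin_cases i <;> fin_cases j <;> simp_all [f]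
  refine h.false ⟨⟨f, hf⟩, ?_⟩
  intro i j
  have nyb : ¬ G.Adj y b := fun h => nby h.symm
  have nzb : ¬ G.Adj z b := fun h => nbz h.symm
  have nyc : ¬ G.Adj y c := fun h => ncy h.symm
  have nzc : ¬ G.Adj z c := fun h => ncz h.symm
  have nza : ¬ G.Adj z a := fun h => naz h.symm
  have hcb := hbc.symm
  have hab := hba.symm
  have hac := hca.symm
  have hya := hay.symm
  have hzy := hyz.symm
  fin_cases i <;> fin_cases j <;>
    simp [f, hammer, hbc, hba, hca, hay, hyz, nby, nbz, ncy, ncz, naz, nyb, nzb, nyc, nzc, nza, hcb,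
      hab, hac, hya, hzy]

theorem omega_ex (G : SimpleGraph V) (H : Finset V) {n : ℕ}
    (hT : ∃ T : Finset V, T ⊆ H ∧ G.IsNClique n T) : ∃ w, Omega G H w ∧ n ≤ w := by
  classical
  obtain ⟨T, hT, hTc⟩ := hT
  obtain ⟨K, hK, hmax⟩ := Finset.exists_max_image
    (H.powerset.filter (fun K : Finset V => G.IsClique (K : Set V))) (fun K : Finset V => K.card)
    ⟨∅, by simp⟩
  rw [Finset.mem_filter, Finset.mem_powerset] at hK
  have h1 : ∀ K' : Finset V, K' ⊆ H → G.IsClique (K' : Set V) → K'.card ≤ K.card := by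
    intro K' hK' hc
    exact hmax K' (by rw [Finset.mem_filter, Finset.mem_powerset]; exact ⟨hK', hc⟩)
  refine ⟨K.card, ⟨⟨K, hK.1, hK.2, rfl⟩, h1⟩, ?_⟩
  have h2 := h1 T hT hTc.1
  rw [hTc.2] at h2
  exact h2

/-- no clique on `d + 2` vertices with a pendant path of length two -/
def NoTail {V : Type} (G : SimpleGraph V) (d : ℕ) : Prop :=
  ∀ (Q : Finset V) (a y z : V), G.IsNClique (d + 1) Q → (∀ q ∈ Q, G.Adj a q) → G.Adj a y →
    (∀ q ∈ Q, ¬ G.Adj y q) → G.Adj y z → ¬ G.Adj a z → (∀ q ∈ Q, ¬ G.Adj z q) → False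

/-- no clique on `d + 1` vertices anticomplete to an edge -/
def NoFar {V : Type} (G : SimpleGraph V) (d : ℕ) : Prop :=
  ∀ (Q : Finset V) (y z : V), G.IsNClique (d + 1) Q → G.Adj y z → (∀ q ∈ Q, ¬ G.Adj y q) →
    (∀ q ∈ Q, ¬ G.Adj z q) → False

theorem noTail_of_hammer (h : IsEmpty (hammer ↪g G)) : NoTail G 1 := by
  classical
  intro Q a y z hQ ha hay hy hyz haz hz
  obtain ⟨b, hb, c, hc, hbc⟩ := Finset.one_lt_card.1 (by rw [hQ.2]; omega : 1 < Q.card)
  exact no_hammer h (hQ.1 hb hc hbc) (ha b hb).symm (ha c hc).symm hay hyz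
    (fun e => hy b hb e.symm) (fun e => hz b hb e.symm) (fun e => hy c hc e.symm)
    (fun e => hz c hc e.symm) haz

theorem condC_of [Fintype V] {d : ℕ} (hd : 1 ≤ d) (h : NoTail G d) {w : ℕ} (hw : 3 * d ≤ w) (H : Finset V) :
    CondC G H w := by
  classical
  refine ⟨d, hd, hw, ?_⟩
  intro K D y z a hK hy hz hKc hcard hmis hzy ha hya hDK hDy
  by_contra hcon
  push Not at hcon
  obtain ⟨Q, hQ, hQc⟩ := sub_clique (G := G) (n := d + 1) (K := D)
    (hKc.subset (by exact_mod_cast hDK)) (by omega)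
  refine h Q a y z hQc ?_ hya.symm (fun q hq => hDy q (hQ hq)) hzy.symm (fun e => hmis.2 a ha e.symm)
    (fun q hq => hmis.2 q (hDK (hQ hq)))
  intro q hq
  refine hKc ha (hDK (hQ hq)) ?_
  rintro rfl
  exact hDy a (hQ hq) hya

theorem condD_of [Fintype V] {d : ℕ} (hd : 1 ≤ d) (h : NoFar G d) {w : ℕ} (hw : 2 * d + 1 ≤ w) (H : Finset V) :
    CondD G H w := by
  classical
  refine ⟨d, hd, hw, ?_⟩
  intro K D y z hK hy hz hKc hmis hzy hDK hDy
  by_contra hcon
  push Not at hcon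
  obtain ⟨Q, hQ, hQc⟩ := sub_clique (G := G) (n := d + 1) (K := D)
    (hKc.1.subset (by exact_mod_cast hDK)) (by omega)
  exact h Q y z hQc hzy.symm (fun q hq => hDy q (hQ hq)) (fun q hq => hmis.2 q (hDK (hQ hq)))

/-- sets with an edge -/
theorem hm_edge [DecidableEq V] [Fintype V] (ho : OddHoleFree G)
    (hG : ∀ (H : Finset V) (w : ℕ), 3 ≤ w → Omega G H w → Good G H w)
    (S : Finset V) (hS : ∃ u ∈ S, ∃ v ∈ S, G.Adj u v) :
    ∃ A : Finset V, A ⊆ S ∧
      (∀ T : Finset V, T ⊆ A → G.IsClique (T : Set V) →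
          ∃ T' : Finset V, T' ⊆ S ∧ G.IsClique (T' : Set V) ∧ T.card < T'.card) ∧
      (∀ T : Finset V, T ⊆ S \ A → G.IsClique (T : Set V) →
          ∃ T' : Finset V, T' ⊆ S ∧ G.IsClique (T' : Set V) ∧ T.card < T'.card) := by
  obtain ⟨u, hu, v, hv, huv⟩ := hS
  obtain ⟨w, hw, h2⟩ := omega_ex G S (n := 2) ⟨{u, v}, by
    intro x hx
    simp only [Finset.mem_insert, Finset.mem_singleton] at hx
    rcases hx with rfl | rfl <;> assumption, by
    refine ⟨?_, Finset.card_pair (G.ne_of_adj huv)⟩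
    intro x hx y hy hxy
    simp only [Finset.coe_insert, Finset.coe_singleton, Set.mem_insert_iff,
      Set.mem_singleton_iff] at hx hy
    rcases hx with rfl | rfl <;> rcases hy with rfl | rfl
    · exact absurd rfl hxy
    · exact huv
    · exact huv.symm
    · exact absurd rfl hxy⟩
  refine hm_div (C5free_of ho) S w h2 hw ?_
  intro H _ hH
  rcases Nat.lt_or_ge w 3 with h3 | h3
  · exact Or.inr ⟨by omega, ho⟩
  · exact Or.inl (hG H w h3 hH)

/-- sets with a clique of `n ≥ 3` vertices -/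
theorem hm_tri [DecidableEq V] [Fintype V] (h5 : C5free G) {n : ℕ} (hn : 3 ≤ n)
    (hG : ∀ (H : Finset V) (w : ℕ), n ≤ w → Omega G H w → Good G H w)
    (S : Finset V) (hS : ∃ T : Finset V, T ⊆ S ∧ G.IsNClique n T) :
    ∃ A : Finset V, A ⊆ S ∧
      (∀ T : Finset V, T ⊆ A → G.IsClique (T : Set V) →
          ∃ T' : Finset V, T' ⊆ S ∧ G.IsClique (T' : Set V) ∧ T.card < T'.card) ∧
      (∀ T : Finset V, T ⊆ S \ A → G.IsClique (T : Set V) →
          ∃ T' : Finset V, T' ⊆ S ∧ G.IsClique (T' : Set V) ∧ T.card < T'.card) := by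
  obtain ⟨w, hw, h2⟩ := omega_ex G S hS
  exact hm_div h5 S w (by omega) hw (fun H _ hH => Or.inl (hG H w h2 hH))

end Pool.Agent.H92.HM
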