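import Mathlib
import Pool.Agent.H92.HM.Ham

/-!
MP_5aa732_co: minimal counterexamples without long hammer (triangle with a pendant path of length three).
-/

set_option autoImplicit false
set_option linter.unusedSectionVars false
set_option linter.unusedVariables false

namespace Pool.Agent.H92.HM

open SimpleGraph Finset Pool.Agent.H92.TD

/-- No induced triangle `a b c` with pendant path `a p q r` such that `a b c` is contained in an
`(m+1)`-clique missed by `q`, or `q r` is contained in an `(m+1)`-clique missed by `a`. -/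
def LongF {V : Type} (G : SimpleGraph V) (m : ℕ) : Prop :=
  ∀ (K : Finset V) (a b c p q r : V), G.IsNClique (m + 1) K →
    ((a ∈ K ∧ b ∈ K ∧ c ∈ K ∧ Rem G K q) ∨ (q ∈ K ∧ r ∈ K ∧ Rem G K a)) →
    G.Adj a b → G.Adj a c → G.Adj b c → G.Adj a p → G.Adj p q → G.Adj q r →
    ¬ G.Adj b p → ¬ G.Adj c p → ¬ G.Adj a q → ¬ G.Adj b q → ¬ G.Adj c q →
    ¬ G.Adj a r → ¬ G.Adj b r → ¬ G.Adj c r → ¬ G.Adj p r → False

variable {V : Type} [Fintype V] {G : SimpleGraph V} {m : ℕ}

theorem lemA (hL : LongF G m) (h5 : C5free G) {K : Finset V} (hK : G.IsNClique (m + 1) K) {v y u : V}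
    (hR : Rem G K v) (hvy : G.Adj v y) (hvu : G.Adj v u) (hyu : ¬ G.Adj y u)
    (hD : 2 ≤ (DD G K y).card) {a : V} (ha : a ∈ K) (hya : G.Adj y a) : G.Adj u a := by
  by_contra hua
  have key : ∀ b ∈ K, ¬ G.Adj y b → ¬ G.Adj u b := fun b hb hyb hub =>
    nest5 h5 hK.1 hR hvy hvu hyu hb ha hub hyb hya hua
  obtain ⟨b, hb, c, hc, hbc⟩ := Finset.one_lt_card.1 (by omega : 1 < (DD G K y).card)
  rw [mem_DD] at hb hc
  have hab : a ≠ b := fun e => hb.2 (e ▸ hya)
  have hac : a ≠ c := fun e => hc.2 (e ▸ hya)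
  exact hL K a b c y v u hK (Or.inl ⟨ha, hb.1, hc.1, hR⟩) (hK.1 ha hb.1 hab) (hK.1 ha hc.1 hac)
    (hK.1 hb.1 hc.1 hbc) hya.symm hvy.symm hvu
    (fun e => hb.2 e.symm) (fun e => hc.2 e.symm) (fun e => hR.2 a ha e.symm)
    (fun e => hR.2 b hb.1 e.symm) (fun e => hR.2 c hc.1 e.symm) (fun e => hua e.symm)
    (fun e => key b hb.1 hb.2 e.symm) (fun e => key c hc.1 hc.2 e.symm) hyu

theorem lemD (hL : LongF G m) (h5 : C5free G) {K : Finset V} (hK : G.IsNClique (m + 1) K)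
    {v y s t : V} (hR : Rem G K v) (hvy : G.Adj v y) (hvs : G.Adj v s) (hvt : G.Adj v t)
    (hys : ¬ G.Adj y s) (hyt : ¬ G.Adj y t) (hst : G.Adj s t) {r c : V} (hr : r ∈ K)
    (hyr : G.Adj y r) (hc : c ∈ K) (hyc : ¬ G.Adj y c) : G.Adj s r ∨ G.Adj t r := by
  by_contra hcon
  push Not at hcon
  have h1 : ¬ G.Adj s c := fun h => nest5 h5 hK.1 hR hvy hvs hys hc hr h hyc hyr hcon.1
  have h2 : ¬ G.Adj t c := fun h => nest5 h5 hK.1 hR hvy hvt hyt hc hr h hyc hyr hcon.2
  have hrc : r ≠ c := fun e => hyc (e ▸ hyr)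
  exact hL K v s t y r c hK (Or.inr ⟨hr, hc, hR⟩) hvs hvt hst hvy hyr (hK.1 hr hc hrc) (fun e => hys e.symm)
    (fun e => hyt e.symm) (hR.2 r hr) hcon.1 hcon.2 (hR.2 c hc) h1 h2 hyc

/-- a minimizer of the number of missed cliques is at distance two from every missed clique -/
theorem lemC (h : MinCE G m) (hm : 2 ≤ m) (hL : LongF G m) {v : V}
    (hmin : ∀ u, (KR G m v).card ≤ (KR G m u).card) {K : Finset V} (hK : G.IsNClique (m + 1) K)
    (hR : Rem G K v) : ∃ y, G.Adj v y ∧ ∃ b ∈ K, G.Adj y b := by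
  classical
  by_contra hcon
  push Not at hcon
  have hKne : K.Nonempty := Finset.card_pos.1 (by rw [hK.2]; omega)
  obtain ⟨d, hd0, hd1, hd2⟩ := exists_layer (connected_of h) K hKne
  have hone : ∀ w, d w = 1 → w ∉ K ∧ ∃ a ∈ K, G.Adj w a := by
    intro w hw
    refine ⟨fun hk => by have := (hd0 w).2 hk; omega, ?_⟩
    obtain ⟨x, hx, hdx⟩ := hd2 w (by omega)
    exact ⟨x, (hd0 x).1 (by omega), hx⟩
  have hfar : ∀ w, 2 ≤ d w → ∀ k ∈ K, ¬ G.Adj w k := by
    intro w hw k hk hwk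
    have h1 := hd1 w k hwk
    have h2 := (hd0 k).2 hk
    omega
  have hremd : ∀ w, 2 ≤ d w → Rem G K w :=
    fun w hw => ⟨fun hk => by have := (hd0 w).2 hk; omega, hfar w hw⟩
  -- the last step
  have hstep : ∀ w2 w3 : V, d w2 = 2 → d w3 = 3 → G.Adj w2 w3 → ∀ w1, d w1 = 1 → G.Adj w1 w2 →
      (DD G K w1).card ≤ 1 := by
    intro w2 w3 h2 h3 h23 w1 h1 h12
    by_contra hc
    push Not at hc
    obtain ⟨b, hb, c, hc, hbc⟩ := Finset.one_lt_card.1 hc
    rw [mem_DD] at hb hc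
    obtain ⟨_, a, ha, h1a⟩ := hone w1 h1
    have hab : a ≠ b := fun e => hb.2 (e ▸ h1a)
    have hac : a ≠ c := fun e => hc.2 (e ▸ h1a)
    refine hL K a b c w1 w2 w3 hK (Or.inl ⟨ha, hb.1, hc.1, hremd w2 (by omega)⟩) (hK.1 ha hb.1 hab) (hK.1 ha hc.1 hac) (hK.1 hb.1 hc.1 hbc) h1a.symm
      h12 h23 (fun e => hb.2 e.symm) (fun e => hc.2 e.symm)
      (fun e => hfar w2 (by omega) a ha e.symm) (fun e => hfar w2 (by omega) b hb.1 e.symm)
      (fun e => hfar w2 (by omega) c hc.1 e.symm) (fun e => hfar w3 (by omega) a ha e.symm)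
      (fun e => hfar w3 (by omega) b hb.1 e.symm) (fun e => hfar w3 (by omega) c hc.1 e.symm) ?_
    intro e
    have := hd1 w3 w1 e.symm
    omega
  -- two neighbours in K
  have htwo : ∀ w1, w1 ∉ K → (DD G K w1).card ≤ 1 → ∃ a ∈ K, ∃ a' ∈ K, a ≠ a' ∧ G.Adj w1 a ∧
      G.Adj w1 a' := by
    intro w1 _ hc
    have h3 := DD_card (G := G) K w1
    rw [hK.2] at h3
    obtain ⟨a, ha, a', ha', hne⟩ := Finset.one_lt_card.1
      (by omega : 1 < (K.filter (fun k => G.Adj w1 k)).card)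
    rw [Finset.mem_filter] at ha ha'
    exact ⟨a, ha.1, a', ha'.1, hne, ha.2, ha'.2⟩
  -- a maximum clique containing `w1` and its neighbours in `K`
  have hins : ∀ w1, w1 ∉ K → (DD G K w1).card ≤ 1 → ∃ K1 : Finset V, G.IsNClique (m + 1) K1 ∧
      (w1 ∈ K1 ∧ (∀ k ∈ K, G.Adj w1 k → k ∈ K1) ∧ ∀ k ∈ K1, k = w1 ∨ k ∈ K) := by
    intro w1 hw1 hc
    have h3 := DD_card (G := G) K w1
    rw [hK.2] at h3
    have e1 : G.IsClique ((K.filter (fun k => G.Adj w1 k) : Finset V) : Set V) :=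
      hK.1.subset (fun z hz => (Finset.mem_filter.1 (Finset.mem_coe.1 hz)).1)
    have e2 : (K.filter (fun k => G.Adj w1 k)).card ≤ m :=
      card_le_of_clique_nb h.free e1 (fun k hk => (Finset.mem_filter.1 hk).2)
    have e3 : (K.filter (fun k => G.Adj w1 k)).card = m := by omega
    refine ⟨insert w1 (K.filter (fun k => G.Adj w1 k)),
      clique_insert ⟨e1, e3⟩ (fun k hk => (Finset.mem_filter.1 hk).2),
      Finset.mem_insert_self _ _, ?_, ?_⟩
    · intro k hk hw
      exact Finset.mem_insert_of_mem (Finset.mem_filter.2 ⟨hk, hw⟩)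
    · intro k hk
      rcases Finset.mem_insert.1 hk with hk | hk
      · exact Or.inl hk
      · exact Or.inr (Finset.mem_filter.1 hk).1
  have hremi : ∀ (K1 : Finset V) (w1 z : V), (∀ k ∈ K1, k = w1 ∨ k ∈ K) → 2 ≤ d z → z ≠ w1 →
      ¬ G.Adj z w1 → Rem G K1 z := by
    intro K1 w1 z hk1 hz hzw hzw1
    refine ⟨?_, ?_⟩
    · intro hh
      rcases hk1 z hh with e | e
      · exact hzw e
      · exact (hremd z hz).1 e
    · intro k hk
      rcases hk1 k hk with e | e
      · rw [e]; exact hzw1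
      · exact hfar z hz k e
  have hv2 : 3 ≤ d v := by
    have h0 : d v ≠ 0 := fun e => hR.1 ((hd0 v).1 e)
    obtain ⟨y, hvy, hdy⟩ := hd2 v h0
    have hy0 : d y ≠ 0 := by
      intro e
      exact hR.2 y ((hd0 y).1 e) hvy
    obtain ⟨z, hyz, hdz⟩ := hd2 y hy0
    have hz0 : d z ≠ 0 := by
      intro e
      exact hcon y hvy z ((hd0 z).1 e) hyz
    omega
  have h3 : ∀ w, d w ≤ 3 := by
    intro w
    by_contra hw
    push Not at hw
    have desc : ∀ n : ℕ, ∀ w : V, d w = n + 4 → ∃ w4, d w4 = 4 := by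
      intro n
      induction n with
      | zero => intro w hw; exact ⟨w, hw⟩
      | succ n ih =>
        intro w hw
        obtain ⟨z, _, hdz⟩ := hd2 w (by omega)
        exact ih z (by omega)
    obtain ⟨w4, h4⟩ := desc (d w - 4) w (by omega)
    obtain ⟨w3, h43, hw3⟩ := hd2 w4 (by omega)
    obtain ⟨w2, h32, hw2⟩ := hd2 w3 (by omega)
    obtain ⟨w1, h21, hw1⟩ := hd2 w2 (by omega)
    have hc := hstep w2 w3 (by omega) (by omega) h32.symm w1 (by omega) h21.symm
    obtain ⟨a, ha, a', ha', hne, h1a, h1a'⟩ := htwo w1 (hone w1 (by omega)).1 hc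
    obtain ⟨K1, hK1, hm1⟩ := hins w1 (hone w1 (by omega)).1 hc
    refine hL K1 w1 a a' w2 w3 w4 hK1 (Or.inl ⟨hm1.1, hm1.2.1 a ha h1a, hm1.2.1 a' ha' h1a',
      hremi K1 w1 w3 hm1.2.2 (by omega) (fun e => by have := congrArg d e; omega)
        (fun e => by have := hd1 w3 w1 e; omega)⟩) h1a h1a' (hK.1 ha ha' hne) h21.symm h32.symm h43.symm
      (fun e => hfar w2 (by omega) a ha e.symm) (fun e => hfar w2 (by omega) a' ha' e.symm) ?_
      (fun e => hfar w3 (by omega) a ha e.symm) (fun e => hfar w3 (by omega) a' ha' e.symm) ?_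
      (fun e => hfar w4 (by omega) a ha e.symm) (fun e => hfar w4 (by omega) a' ha' e.symm) ?_
    · intro e
      have := hd1 w3 w1 e.symm
      omega
    · intro e
      have := hd1 w4 w1 e.symm
      omega
    · intro e
      have := hd1 w4 w2 e.symm
      omega
  have hdv : d v = 3 := le_antisymm (h3 v) hv2
  obtain ⟨p1, hvp1, hdp1⟩ := hd2 v (by omega)
  obtain ⟨p2, hp12, hdp2⟩ := hd2 p1 (by omega)
  have hp2K := hone p2 (by omega)
  have hc2 := hstep p1 v (by omega) hdv hvp1.symm p2 (by omega) hp12.symm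
  obtain ⟨a, ha, a', ha', hne, h2a, h2a'⟩ := htwo p2 hp2K.1 hc2
  obtain ⟨x, hx, h2x⟩ := not_complete h.free hK hp2K.1
  have hvp2 : ¬ G.Adj v p2 := fun e => by have := hd1 v p2 e; omega
  have hNv : ∀ u, G.Adj v u → G.Adj p2 u := by
    intro u hvu
    by_contra h2u
    have hdu : 2 ≤ d u := by have := hd1 v u hvu; omega
    by_cases hu1 : G.Adj p1 u
    · have hax : a ≠ x := fun e => h2x (e ▸ h2a)
      exact hL K p1 v u p2 a x hK (Or.inr ⟨ha, hx, hremd p1 (by omega)⟩) hvp1.symm hu1 hvu hp12 h2a (hK.1 ha hx hax) hvp2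
        (fun e => h2u e.symm) (hfar p1 (by omega) a ha) (hfar v (by omega) a ha)
        (hfar u hdu a ha) (hfar p1 (by omega) x hx) (hfar v (by omega) x hx)
        (hfar u hdu x hx) h2x
    · obtain ⟨K1, hK1, hm1⟩ := hins p2 hp2K.1 hc2
      refine hL K1 p2 a a' p1 v u hK1 (Or.inl ⟨hm1.1, hm1.2.1 a ha h2a, hm1.2.1 a' ha' h2a',
        hremi K1 p2 v hm1.2.2 (by omega) (fun e => by have := congrArg d e; omega) hvp2⟩) h2a h2a' (hK.1 ha ha' hne) hp12.symm hvp1.symm hvu
        (fun e => hfar p1 (by omega) a ha e.symm) (fun e => hfar p1 (by omega) a' ha' e.symm)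
        (fun e => hvp2 e.symm) (fun e => hfar v (by omega) a ha e.symm)
        (fun e => hfar v (by omega) a' ha' e.symm) h2u (fun e => hfar u hdu a ha e.symm)
        (fun e => hfar u hdu a' ha' e.symm) hu1
  have hsub : KR G m p2 ⊂ KR G m v := by
    rw [Finset.ssubset_iff_of_subset]
    · refine ⟨K, mem_KR.2 ⟨hK, hR⟩, ?_⟩
      intro hK2
      exact (mem_KR.1 hK2).2.2 a ha h2a
    · intro K' hK'
      rw [mem_KR] at hK'
      refine mem_KR.2 ⟨hK'.1, ?_, ?_⟩
      · intro hv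
        have hcard : 1 < K'.card := by rw [hK'.1.2]; omega
        obtain ⟨u, hu, huv⟩ := Finset.exists_mem_ne hcard v
        exact hK'.2.2 u hu (hNv u (hK'.1.1 hv hu (Ne.symm huv)))
      · intro k hk hvk
        exact hK'.2.2 k hk (hNv k hvk)
  have h1 := Finset.card_lt_card hsub
  have h2 := hmin p2
  omega

open Classical in
/-- neighbours of `y` that are not neighbours of `v` -/
noncomputable def XX {V : Type} [Fintype V] (G : SimpleGraph V) (v y : V) : Finset V :=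
  Finset.univ.filter (fun w => G.Adj y w ∧ w ≠ v ∧ ¬ G.Adj v w)

theorem mem_XX {v y w : V} : w ∈ XX G v y ↔ G.Adj y w ∧ w ≠ v ∧ ¬ G.Adj v w := by
  classical
  simp [XX]

open Classical in
/-- neighbours of `y` in `K` -/
noncomputable def NN {V : Type} (G : SimpleGraph V) (K : Finset V) (y : V) : Finset V :=
  K.filter (fun k => G.Adj y k)

theorem mem_NN {K : Finset V} {y k : V} : k ∈ NN G K y ↔ k ∈ K ∧ G.Adj y k := by
  classical
  simp [NN]

theorem NN_card (K : Finset V) (y : V) : (NN G K y).card + (DD G K y).card = K.card := by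
  classical
  have h1 : NN G K y = K.filter (fun k => G.Adj y k) := by
    ext x; rw [mem_NN, Finset.mem_filter]
  rw [h1]
  exact DD_card K y

end Pool.Agent.H92.HM
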