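import Mathlib
import Pool.Agent.H92.HM.Long

/-!
MP_5aa732_co: minimal counterexamples without long hammer (triangle with a pendant path of length three).
-/

set_option autoImplicit false
set_option linter.unusedSectionVars false
set_option linter.unusedVariables false

namespace Pool.Agent.H92.HM

open SimpleGraph Finset Pool.Agent.H92.TD

variable {V : Type} [Fintype V] {G : SimpleGraph V} {m : ℕ}

/-- every missed clique has a vertex `y` next to `v` with one non-neighbour in it -/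
theorem exists_one (h : MinCE G m) (hm : 2 ≤ m) (hL : LongF G m) {v : V}
    (hmin : ∀ u, (KR G m v).card ≤ (KR G m u).card) {K : Finset V} (hK : G.IsNClique (m + 1) K)
    (hR : Rem G K v) : ∃ y, G.Adj v y ∧ (DD G K y).card ≤ 1 := by
  classical
  -- other missed cliques
  have hswap : ∀ u, K ∉ KR G m u → ∃ K' ∈ KR G m u, K' ∉ KR G m v := by
    intro u hu
    by_contra hcon
    push Not at hcon
    have h1 : KR G m u ⊂ KR G m v := by
      rw [Finset.ssubset_iff_of_subset (fun z hz => hcon z hz)]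
      exact ⟨K, mem_KR.2 ⟨hK, hR⟩, hu⟩
    have h2 := Finset.card_lt_card h1
    have h3 := hmin u
    omega
  obtain ⟨y1, hvy1, b1, hb1, hyb1⟩ := lemC h hm hL hmin hK hR
  obtain ⟨y, hy, hymax⟩ := Finset.exists_max_image
    ((Finset.univ : Finset V).filter (fun y => G.Adj v y ∧ ∃ b ∈ K, G.Adj y b))
    (fun y => (NN G K y).card * (Fintype.card V + 1) + (XX G v y).card)
    ⟨y1, Finset.mem_filter.2 ⟨Finset.mem_univ _, hvy1, b1, hb1, hyb1⟩⟩
  rw [Finset.mem_filter] at hy
  obtain ⟨_, hvy, a, ha, hya⟩ := hy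
  have hymax' : ∀ u, G.Adj v u → (∃ b ∈ K, G.Adj u b) →
      (NN G K u).card * (Fintype.card V + 1) + (XX G v u).card ≤
        (NN G K y).card * (Fintype.card V + 1) + (XX G v y).card :=
    fun u hu hb => hymax u (Finset.mem_filter.2 ⟨Finset.mem_univ _, hu, hb⟩)
  have hmaxN : ∀ u, G.Adj v u → (∃ b ∈ K, G.Adj u b) → (NN G K u).card ≤ (NN G K y).card := by
    intro u hu hb
    by_contra hc
    push Not at hc
    have h1 := hymax' u hu hb
    have h2 : ((NN G K y).card + 1) * (Fintype.card V + 1) ≤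
        (NN G K u).card * (Fintype.card V + 1) := Nat.mul_le_mul_right _ hc
    have h3 : (XX G v y).card ≤ Fintype.card V := Finset.card_le_univ _
    rw [Nat.add_mul, Nat.one_mul] at h2
    omega
  have hyK : y ∉ K := fun hh => hR.2 y hh hvy
  obtain ⟨x, hx, hyx⟩ := not_complete h.free hK hyK
  obtain ⟨K', hK'y, hK'v⟩ := hswap y (fun hh => (mem_KR.1 hh).2.2 a ha hya)
  rw [mem_KR] at hK'y
  obtain ⟨hK', hR'⟩ := hK'y
  have hvK' : v ∉ K' := fun hh => hR'.2 v hh hvy.symm
  have hvk : ∃ q ∈ K', G.Adj v q := by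
    by_contra hcon
    push Not at hcon
    exact hK'v (mem_KR.2 ⟨hK', hvK', hcon⟩)
  obtain ⟨q, hq, hvq⟩ := hvk
  obtain ⟨p, hp, hvp⟩ := not_complete h.free hK' hvK'
  -- Claim 1
  have hc1 : (DD G K' v).card ≤ 1 := by
    by_contra hc
    push Not at hc
    have hXq : ∀ w ∈ XX G v y, G.Adj w q := by
      intro w hw
      rw [mem_XX] at hw
      exact lemA hL h.c5 hK' hR' hvy.symm hw.1 hw.2.2 hc hq hvq
    have hNq : NN G K y ⊆ NN G K q := by
      intro k hk
      rw [mem_NN] at hk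
      refine mem_NN.2 ⟨hk.1, (hXq k (mem_XX.2 ⟨hk.2, ?_, hR.2 k hk.1⟩)).symm⟩
      rintro rfl
      exact hR.1 hk.1
    have hXX : XX G v y ⊂ XX G v q := by
      rw [Finset.ssubset_iff_of_subset]
      · refine ⟨p, mem_XX.2 ⟨hK'.1 hq hp (fun e => hvp (e ▸ hvq)), ?_, hvp⟩, ?_⟩
        · rintro rfl
          exact hvK' hp
        · intro hh
          exact hR'.2 p hp (mem_XX.1 hh).1
      · intro w hw
        have hw' := mem_XX.1 hw
        exact mem_XX.2 ⟨(hXq w hw).symm, hw'.2⟩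
    have hqa : G.Adj q a := (mem_NN.1 (hNq (mem_NN.2 ⟨ha, hya⟩))).2
    have h1 := hymax' q hvq ⟨a, ha, hqa⟩
    have h2 := Finset.card_lt_card hXX
    have h3 : (NN G K y).card * (Fintype.card V + 1) ≤ (NN G K q).card * (Fintype.card V + 1) :=
      Nat.mul_le_mul_right _ (Finset.card_le_card hNq)
    omega
  have hN' := NN_card (G := G) K' v
  rw [hK'.2] at hN'
  -- Claim 2
  have hc2 : (DD G K y).card ≤ 1 := by
    by_contra hc
    push Not at hc
    -- neighbours of v adjacent to a vertex of N_K(y)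
    have hA : ∀ u, G.Adj v u → ¬ G.Adj y u → ∀ a' ∈ K, G.Adj y a' → G.Adj u a' :=
      fun u hvu hyu a' ha' hya' => lemA hL h.c5 hK hR hvy hvu hyu hc ha' hya'
    have hyq' : ∀ q' ∈ NN G K' v, ¬ G.Adj y q' := fun q' hq' => hR'.2 q' (mem_NN.1 hq').1
    -- N_K(y) has one element
    have hNy : (NN G K y).card ≤ 1 := by
      have h1 : (NN G K y).card ≤ (DD G K' v).card := by
        refine card_Q_le h.free hK' (fun z hz => (mem_DD.1 hz).1) ?_ ?_ ?_
        · exact hK.1.subset (fun z hz => (mem_NN.1 (Finset.mem_coe.1 hz)).1)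
        · intro z hz hzK'
          exact hR'.2 z hzK' (mem_NN.1 hz).2
        · intro z hz k hk hkD
          have hvk : G.Adj v k := by
            by_contra hn
            exact hkD (mem_DD.2 ⟨hk, hn⟩)
          exact (hA k hvk (hR'.2 k hk) z (mem_NN.1 hz).1 (mem_NN.1 hz).2).symm
      omega
    have hN1 : ∀ u, G.Adj v u → (∃ b ∈ K, G.Adj u b) → (NN G K u).card ≤ 1 :=
      fun u hu hb => (hmaxN u hu hb).trans hNy
    have hNKcard := NN_card (G := G) K y
    rw [hK.2] at hNKcard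
    obtain ⟨Ks, hKsa, hKsv⟩ := hswap a (fun hh => (mem_KR.1 hh).2.1 ha)
    rw [mem_KR] at hKsa
    obtain ⟨hKs, hRs⟩ := hKsa
    have hyKs : y ∉ Ks := fun hh => hRs.2 y hh hya.symm
    have hB : ∀ u, G.Adj v u → ¬ G.Adj a u → G.Adj y u := by
      intro u hvu hau
      by_contra hyu
      exact hau (hA u hvu hyu a ha hya).symm
    have hvKs : v ∉ Ks := by
      intro hv
      obtain ⟨k, hk, hyk⟩ := not_complete h.free hKs hyKs
      by_cases hkv : k = v
      · subst hkv
        exact hyk hvy.symm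
      · exact hyk (hB k (hKs.1 hv hk (Ne.symm hkv)) (hRs.2 k hk))
    have hvr : ∃ r ∈ Ks, G.Adj v r := by
      by_contra hcon
      push Not at hcon
      exact hKsv (mem_KR.2 ⟨hKs, hvKs, hcon⟩)
    obtain ⟨r, hr, hvr⟩ := hvr
    have har : ¬ G.Adj a r := hRs.2 r hr
    have hyr : G.Adj y r := hB r hvr har
    have hrN : ¬ ∀ k ∈ NN G K' v, G.Adj r k := by
      intro hall
      have h1 : G.IsNClique (m + 1) (insert r (NN G K' v)) := by
        have h2 : G.IsNClique (NN G K' v).card (NN G K' v) :=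
          ⟨hK'.1.subset (fun z hz => (mem_NN.1 (Finset.mem_coe.1 hz)).1), rfl⟩
        have h3 := clique_insert h2 hall
        have h4 : 1 ≤ (DD G K' v).card := Finset.card_pos.2 ⟨p, mem_DD.2 ⟨hp, hvp⟩⟩
        have h5 : (NN G K' v).card = m := by omega
        rwa [h5] at h3
      refine h.free _ (clique_insert h1 (v := v) ?_)
      intro k hk
      rcases Finset.mem_insert.1 hk with rfl | hk
      · exact hvr
      · exact (mem_NN.1 hk).2
    obtain ⟨c, hcs, hyc⟩ := not_complete h.free hKs hyKs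
    by_cases hds : 2 ≤ (DD G Ks y).card
    · apply hrN
      intro k hk
      have hak : G.Adj a k := (hA k (mem_NN.1 hk).2 (hyq' k hk) a ha hya).symm
      exact (lemA hL h.c5 hKs hRs hya.symm hak (hyq' k hk) hds hr hyr).symm
    · -- one vertex of N' is not adjacent to r
      push Not at hrN
      obtain ⟨q1, hq1, hrq1⟩ := hrN
      have hvq1 := (mem_NN.1 hq1).2
      have haq1 : G.Adj q1 a := hA q1 hvq1 (hyq' q1 hq1) a ha hya
      obtain ⟨b, hb, c', hc', hbc⟩ := Finset.one_lt_card.1 (by omega : 1 < (DD G K y).card)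
      rw [mem_DD] at hb hc'
      have hab : a ≠ b := fun e => hb.2 (e ▸ hya)
      have hac : a ≠ c' := fun e => hc'.2 (e ▸ hya)
      have hrb : G.Adj b r ∨ G.Adj c' r := lemD hL h.c5 hKs hRs hya.symm (hK.1 ha hb.1 hab)
        (hK.1 ha hc'.1 hac) hb.2 hc'.2 (hK.1 hb.1 hc'.1 hbc) hr hyr hcs hyc
      have fin : ∀ b ∈ K, G.Adj b r → b ≠ a → False := by
        intro b hb hbr hba
        have hqb : G.Adj q1 b := by
          by_contra hn
          exact nest5 h.c5 hK.1 hR hvr hvq1 hrq1 ha hb haq1 (fun e => har e.symm) hbr.symm hn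
        have h1 := hN1 q1 hvq1 ⟨a, ha, haq1⟩
        have h2 : 1 < (NN G K q1).card :=
          Finset.one_lt_card.2 ⟨a, mem_NN.2 ⟨ha, haq1⟩, b, mem_NN.2 ⟨hb, hqb⟩, Ne.symm hba⟩
        omega
      rcases hrb with hh | hh
      · exact fin b hb.1 hh (Ne.symm hab)
      · exact fin c' hc'.1 hh (Ne.symm hac)
  exact ⟨y, hvy, hc2⟩

/-- `y` is adjacent to all vertices of `K` except `x` -/
def Only {V : Type} (G : SimpleGraph V) (K : Finset V) (x y : V) : Prop :=
  ∀ k ∈ K, (G.Adj y k ↔ k ≠ x)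

theorem swapK {v : V} (hmin : ∀ u, (KR G m v).card ≤ (KR G m u).card) {K : Finset V}
    (hK : G.IsNClique (m + 1) K) (hR : Rem G K v) {u : V} (hu : K ∉ KR G m u) :
    ∃ K' ∈ KR G m u, K' ∉ KR G m v := by
  by_contra hcon
  push Not at hcon
  have h1 : KR G m u ⊂ KR G m v := by
    rw [Finset.ssubset_iff_of_subset (fun z hz => hcon z hz)]
    exact ⟨K, mem_KR.2 ⟨hK, hR⟩, hu⟩
  have h2 := Finset.card_lt_card h1
  have h3 := hmin u
  omega

theorem only_of_DD (hf : G.CliqueFree (m + 2)) {K : Finset V} (hK : G.IsNClique (m + 1) K) {y : V}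
    (hy : y ∉ K) (hc : (DD G K y).card ≤ 1) : ∃ x ∈ K, Only G K x y := by
  classical
  obtain ⟨x, hx, hyx⟩ := not_complete hf hK hy
  refine ⟨x, hx, ?_⟩
  intro k hk
  refine ⟨?_, ?_⟩
  · rintro hyk rfl
    exact hyx hyk
  · intro hkx
    by_contra hyk
    have h1 : 1 < (DD G K y).card :=
      Finset.one_lt_card.2 ⟨k, mem_DD.2 ⟨hk, hyk⟩, x, mem_DD.2 ⟨hx, hyx⟩, hkx⟩
    omega

/-- the structure around a vertex `y` which has the only non-neighbour `x` in `K` -/
theorem struct (h : MinCE G m) (hm : 2 ≤ m) (hL : LongF G m) {v : V}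
    (hmin : ∀ u, (KR G m v).card ≤ (KR G m u).card) {K : Finset V} (hK : G.IsNClique (m + 1) K)
    (hR : Rem G K v) {x : V} (hx : x ∈ K) (hY : ∃ y, G.Adj v y ∧ Only G K x y) :
    ∃ (y : V) (K' : Finset V) (p : V), G.Adj v y ∧ Only G K x y ∧ G.IsNClique (m + 1) K' ∧
      Rem G K' y ∧ v ∉ K' ∧ p ∈ K' ∧ Only G K' p v := by
  classical
  obtain ⟨y1, hy1⟩ := hY
  obtain ⟨y, hy, hymax⟩ := Finset.exists_max_image
    ((Finset.univ : Finset V).filter (fun y => G.Adj v y ∧ Only G K x y))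
    (fun y => (XX G v y).card) ⟨y1, Finset.mem_filter.2 ⟨Finset.mem_univ _, hy1⟩⟩
  rw [Finset.mem_filter] at hy
  obtain ⟨_, hvy, hyx⟩ := hy
  obtain ⟨a, ha, hax⟩ := Finset.exists_mem_ne (by rw [hK.2]; omega : 1 < K.card) x
  have hya : G.Adj y a := (hyx a ha).2 hax
  obtain ⟨K', hK'y, hK'v⟩ := swapK hmin hK hR (u := y)
    (fun hh => (mem_KR.1 hh).2.2 a ha hya)
  rw [mem_KR] at hK'y
  obtain ⟨hK', hR'⟩ := hK'y
  have hvK' : v ∉ K' := fun hh => hR'.2 v hh hvy.symm
  have hvk : ∃ q ∈ K', G.Adj v q := by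
    by_contra hcon
    push Not at hcon
    exact hK'v (mem_KR.2 ⟨hK', hvK', hcon⟩)
  obtain ⟨q, hq, hvq⟩ := hvk
  have hc1 : (DD G K' v).card ≤ 1 := by
    by_contra hc
    push Not at hc
    obtain ⟨p, hp, hvp⟩ := not_complete h.free hK' hvK'
    have hXq : ∀ w ∈ XX G v y, G.Adj w q := by
      intro w hw
      rw [mem_XX] at hw
      exact lemA hL h.c5 hK' hR' hvy.symm hw.1 hw.2.2 hc hq hvq
    have hqK : q ∉ K := fun hh => hR.2 q hh hvq
    have hqk : ∀ k ∈ K, k ≠ x → G.Adj q k := by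
      intro k hk hkx
      refine (hXq k (mem_XX.2 ⟨(hyx k hk).2 hkx, ?_, hR.2 k hk⟩)).symm
      rintro rfl
      exact hR.1 hk
    have hqx : ¬ G.Adj q x := by
      intro hh
      obtain ⟨k, hk, hqk'⟩ := not_complete h.free hK hqK
      by_cases hkx : k = x
      · exact hqk' (hkx ▸ hh)
      · exact hqk' (hqk k hk hkx)
    have hqO : Only G K x q := by
      intro k hk
      refine ⟨?_, hqk k hk⟩
      rintro hh rfl
      exact hqx hh
    have hXX : XX G v y ⊂ XX G v q := by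
      rw [Finset.ssubset_iff_of_subset]
      · refine ⟨p, mem_XX.2 ⟨hK'.1 hq hp (fun e => hvp (e ▸ hvq)), ?_, hvp⟩, ?_⟩
        · rintro rfl
          exact hvK' hp
        · intro hh
          exact hR'.2 p hp (mem_XX.1 hh).1
      · intro w hw
        have hw' := mem_XX.1 hw
        exact mem_XX.2 ⟨(hXq w hw).symm, hw'.2⟩
    have h1 := hymax q (Finset.mem_filter.2 ⟨Finset.mem_univ _, hvq, hqO⟩)
    have h2 := Finset.card_lt_card hXX
    omega
  obtain ⟨p, hp, hpO⟩ := only_of_DD h.free hK' hvK' hc1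
  exact ⟨y, K', p, hvy, hyx, hK', hR', hvK', hp, hpO⟩

/-- (F1): a neighbour of `v` has at most one non-neighbour in `K - x` -/
theorem oneMiss (h : MinCE G m) (hm : 2 ≤ m) (hL : LongF G m) {v : V}
    (hmin : ∀ u, (KR G m v).card ≤ (KR G m u).card) {K : Finset V} (hK : G.IsNClique (m + 1) K)
    (hR : Rem G K v) {x : V} (hx : x ∈ K) (hY : ∃ y, G.Adj v y ∧ Only G K x y) {s a a' : V}
    (hvs : G.Adj v s) (ha : a ∈ K) (ha' : a' ∈ K) (hax : a ≠ x) (hax' : a' ≠ x) (haa : a ≠ a')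
    (hsa : ¬ G.Adj s a) (hsa' : ¬ G.Adj s a') : False := by
  classical
  obtain ⟨y, K', p, hvy, hyx, hK', hR', hvK', hp, hpv⟩ := struct h hm hL hmin hK hR hx hY
  have h5 := h.c5
  have hvp : ¬ G.Adj v p := fun hh => ((hpv p hp).1 hh) rfl
  have hyxn : ¬ G.Adj y x := fun hh => ((hyx x hx).1 hh) rfl
  have hyq : ∀ q ∈ K', ¬ G.Adj y q := hR'.2
  have hva : ∀ k ∈ K, ¬ G.Adj v k := hR.2
  -- a vertex of K' has one non-neighbour in K - x
  have mA : ∀ q ∈ K', q ≠ p → ∀ a1 ∈ K, ∀ a2 ∈ K, a1 ≠ x → a2 ≠ x → a1 ≠ a2 →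
      G.Adj a1 q ∨ G.Adj a2 q := by
    intro q hq hqp a1 h1 a2 h2 h1x h2x h12
    exact lemD hL h5 hK' hR' hvy.symm ((hyx a1 h1).2 h1x) ((hyx a2 h2).2 h2x) (hva a1 h1)
      (hva a2 h2) (hK.1 h1 h2 h12) hq ((hpv q hq).2 hqp) hp hvp
  -- two vertices of K - x are not both complete to K' - p
  have uB : ∀ a1 ∈ K, ∀ a2 ∈ K, a1 ≠ a2 → ∃ q ∈ K', q ≠ p ∧ (¬ G.Adj a1 q ∨ ¬ G.Adj a2 q) := by
    intro a1 h1 a2 h2 h12
    by_contra hcon
    push Not at hcon
    have e1 : G.IsNClique m (K'.erase p) := by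
      refine ⟨hK'.1.subset (fun z hz => Finset.mem_of_mem_erase (Finset.mem_coe.1 hz)), ?_⟩
      rw [Finset.card_erase_of_mem hp, hK'.2]
      rfl
    have e2 := clique_insert (v := a1) e1 (fun k hk =>
      (hcon k (Finset.mem_of_mem_erase hk) (Finset.ne_of_mem_erase hk)).1)
    refine h.free _ (clique_insert (v := a2) e2 ?_)
    intro k hk
    rcases Finset.mem_insert.1 hk with rfl | hk
    · exact hK.1 h2 h1 (Ne.symm h12)
    · exact (hcon k (Finset.mem_of_mem_erase hk) (Finset.ne_of_mem_erase hk)).2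
  -- x has no neighbour in K' - p
  have cx : ∀ q ∈ K', q ≠ p → ¬ G.Adj q x := by
    intro q hq hqp hqx
    have hvq := (hpv q hq).2 hqp
    have hqK : q ∉ K := fun hh => hva q hh hvq
    obtain ⟨k, hk, hqk⟩ := not_complete h.free hK hqK
    have hkx : k ≠ x := fun e => hqk (e ▸ hqx)
    exact nest5 h5 hK.1 hR hvy hvq (hyq q hq) hx hk hqx hyxn ((hyx k hk).2 hkx) hqk
  have hsx_of : ∀ q ∈ K', q ≠ p → ¬ G.Adj q s → ∀ b ∈ K, ¬ G.Adj s b → G.Adj q b →
      ∀ c ∈ K, ¬ G.Adj q c → ¬ G.Adj s c := by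
    intro q hq hqp hqs b hb hsb hqb c hc hqc hsc
    exact nest5 h5 hK.1 hR ((hpv q hq).2 hqp) hvs hqs hc hb hsc hqc hqb hsb
  by_cases hsK : s ∈ K'
  · have hsp : s ≠ p := fun e => hvp (e ▸ hvs)
    rcases mA s hsK hsp a ha a' ha' hax hax' haa with hh | hh
    · exact hsa hh.symm
    · exact hsa' hh.symm
  · by_cases hcase : ∃ q ∈ K', q ≠ p ∧ ¬ G.Adj s q ∧ ∃ a1 ∈ K, a1 ≠ x ∧ ¬ G.Adj q a1
    · obtain ⟨q, hq, hqp, hsq, a1, ha1, ha1x, hqa1⟩ := hcase
      have hvq := (hpv q hq).2 hqp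
      -- a2
      obtain ⟨a2, ha2, ha2x, ha21, hsa2⟩ : ∃ a2 ∈ K, a2 ≠ x ∧ a2 ≠ a1 ∧ ¬ G.Adj s a2 := by
        by_cases e : a = a1
        · exact ⟨a', ha', hax', fun e' => haa (e.trans e'.symm), hsa'⟩
        · exact ⟨a, ha, hax, e, hsa⟩
      have hqa2 : G.Adj q a2 := by
        rcases mA q hq hqp a1 ha1 a2 ha2 ha1x ha2x (Ne.symm ha21) with hh | hh
        · exact absurd hh.symm hqa1
        · exact hh.symm
      have hsa1 := hsx_of q hq hqp (fun e => hsq e.symm) a2 ha2 hsa2 hqa2 a1 ha1 hqa1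
      have hsx := hsx_of q hq hqp (fun e => hsq e.symm) a2 ha2 hsa2 hqa2 x hx (cx q hq hqp)
      exact hL K a2 x a1 q v s hK (Or.inl ⟨ha2, hx, ha1, hR⟩) (hK.1 ha2 hx ha2x) (hK.1 ha2 ha1 ha21) (hK.1 hx ha1 (Ne.symm ha1x))
        hqa2.symm hvq.symm hvs (fun e => cx q hq hqp e.symm) (fun e => hqa1 e.symm)
        (fun e => hva a2 ha2 e.symm) (fun e => hva x hx e.symm) (fun e => hva a1 ha1 e.symm)
        (fun e => hsa2 e.symm) (fun e => hsx e.symm) (fun e => hsa1 e.symm) (fun e => hsq e.symm)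
    · push Not at hcase
      -- s has a non-neighbour in K' - p
      have hex : ∃ q0 ∈ K', q0 ≠ p ∧ ¬ G.Adj s q0 := by
        by_contra hcon
        push Not at hcon
        have e1 : G.IsNClique m (K'.erase p) := by
          refine ⟨hK'.1.subset (fun z hz => Finset.mem_of_mem_erase (Finset.mem_coe.1 hz)), ?_⟩
          rw [Finset.card_erase_of_mem hp, hK'.2]
          rfl
        have e2 := clique_insert (v := v) e1 (fun k hk =>
          (hpv k (Finset.mem_of_mem_erase hk)).2 (Finset.ne_of_mem_erase hk))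
        refine h.free _ (clique_insert (v := s) e2 ?_)
        intro k hk
        rcases Finset.mem_insert.1 hk with rfl | hk
        · exact hvs.symm
        · exact hcon k (Finset.mem_of_mem_erase hk) (Finset.ne_of_mem_erase hk)
      obtain ⟨q0, hq0, hq0p, hsq0⟩ := hex
      have hq0c : ∀ a1 ∈ K, a1 ≠ x → G.Adj q0 a1 := fun a1 h1 h1x => hcase q0 hq0 hq0p hsq0 a1 h1 h1x
      -- b in {a, a'} with a non-neighbour q
      obtain ⟨b, hb, hbx, hsb, q, hq, hqp, hbq⟩ : ∃ b ∈ K, b ≠ x ∧ ¬ G.Adj s b ∧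
          ∃ q ∈ K', q ≠ p ∧ ¬ G.Adj b q := by
        obtain ⟨q, hq, hqp, hh | hh⟩ := uB a ha a' ha' haa
        · exact ⟨a, ha, hax, hsa, q, hq, hqp, hh⟩
        · exact ⟨a', ha', hax', hsa', q, hq, hqp, hh⟩
      have hsq : G.Adj s q := by
        by_contra hn
        exact hbq (hcase q hq hqp hn b hb hbx).symm
      have hvq := (hpv q hq).2 hqp
      have hyb : G.Adj y b := (hyx b hb).2 hbx
      by_cases hsy : G.Adj s y
      · -- K' is missed by y
        exact nest5 h5 hK'.1 hR' hsy.symm hyb hsb hq0 hq (hq0c b hb hbx).symm hsq0 hsq hbq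
      · have hsx := hsx_of q0 hq0 hq0p (fun e => hsq0 e.symm) b hb hsb (hq0c b hb hbx) x hx
          (cx q0 hq0 hq0p)
        exact hL K v s q y b x hK (Or.inr ⟨hb, hx, hR⟩) hvs hvq hsq hvy hyb (hK.1 hb hx hbx) hsy (fun e => hyq q hq e.symm)
          (hva b hb) hsb (fun e => hbq e.symm) (hva x hx) hsx (cx q hq hqp) hyxn

/-- every missed clique has a vertex without neighbour next to `v` -/
theorem exists_anti (h : MinCE G m) (hm : 2 ≤ m) (hL : LongF G m) {v : V}
    (hmin : ∀ u, (KR G m v).card ≤ (KR G m u).card) {K : Finset V} (hK : G.IsNClique (m + 1) K)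
    (hR : Rem G K v) : ∃ x ∈ K, ∀ s, G.Adj v s → ¬ G.Adj s x := by
  classical
  by_contra hcon
  push Not at hcon
  have hnK : ∀ s, G.Adj v s → s ∉ K := fun s hs hh => hR.2 s hh hs
  obtain ⟨y, hvy, hy1⟩ := exists_one h hm hL hmin hK hR
  obtain ⟨x, hx, hyx⟩ := only_of_DD h.free hK (hnK y hvy) hy1
  obtain ⟨s, hvs, hsx⟩ := hcon x hx
  -- s has a single non-neighbour c
  obtain ⟨c, hc, hsc⟩ := not_complete h.free hK (hnK s hvs)
  have hcx : c ≠ x := fun e => hsc (e ▸ hsx)
  have hsO : Only G K c s := by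
    intro k hk
    refine ⟨?_, ?_⟩
    · rintro hh rfl
      exact hsc hh
    · intro hkc
      by_contra hn
      have hkx : k ≠ x := fun e => hn (e ▸ hsx)
      exact oneMiss h hm hL hmin hK hR hx ⟨y, hvy, hyx⟩ hvs hk hc hkx hcx hkc hn hsc
  -- all vertices of K are single non-neighbours
  have hall : ∀ e ∈ K, ∃ t, G.Adj v t ∧ Only G K e t := by
    intro e he
    by_contra hne
    have hex : e ≠ x := by
      rintro rfl
      exact hne ⟨y, hvy, hyx⟩
    have hec : e ≠ c := by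
      rintro rfl
      exact hne ⟨s, hvs, hsO⟩
    have hcomp : ∀ t, G.Adj v t → G.Adj e t := by
      intro t hvt
      by_contra het
      refine hne ⟨t, hvt, ?_⟩
      intro k hk
      refine ⟨?_, ?_⟩
      · rintro hh rfl
        exact het hh.symm
      · intro hke
        by_contra htk
        by_cases hkx : k = x
        · have hkc : k ≠ c := fun e' => hcx (e'.symm.trans hkx)
          exact oneMiss h hm hL hmin hK hR hc ⟨s, hvs, hsO⟩ hvt hk he hkc hec hke htk
            (fun e' => het e'.symm)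
        · exact oneMiss h hm hL hmin hK hR hx ⟨y, hvy, hyx⟩ hvt hk he hkx hex hke htk
            (fun e' => het e'.symm)
    have hsub : KR G m e ⊂ KR G m v := by
      rw [Finset.ssubset_iff_of_subset]
      · refine ⟨K, mem_KR.2 ⟨hK, hR⟩, ?_⟩
        intro hK2
        exact (mem_KR.1 hK2).2.1 he
      · intro K' hK'
        rw [mem_KR] at hK'
        refine mem_KR.2 ⟨hK'.1, ?_, ?_⟩
        · intro hv
          have hcard : 1 < K'.card := by rw [hK'.1.2]; omega
          obtain ⟨u, hu, huv⟩ := Finset.exists_mem_ne hcard v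
          exact hK'.2.2 u hu (hcomp u (hK'.1.1 hv hu (Ne.symm huv)))
        · intro k hk hvk
          exact hK'.2.2 k hk (hcomp k hvk)
    have h1 := Finset.card_lt_card hsub
    have h2 := hmin e
    omega
  choose! f hf using hall
  -- the clique f(K)
  have hfne : ∀ a ∈ K, ∀ b ∈ K, a ≠ b → f a ≠ f b := by
    intro a ha b hb hab e
    have h1 := ((hf a ha).2 b hb).2 (Ne.symm hab)
    rw [e] at h1
    exact (((hf b hb).2 b hb).1 h1) rfl
  have hfadj : ∀ a ∈ K, ∀ b ∈ K, a ≠ b → G.Adj (f a) (f b) := by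
    intro a ha b hb hab
    by_contra hn
    exact nest5 h.c5 hK.1 hR (hf a ha).1 (hf b hb).1 hn ha hb (((hf b hb).2 a ha).2 hab)
      (fun hh => (((hf a ha).2 a ha).1 hh) rfl) (((hf a ha).2 b hb).2 (Ne.symm hab))
      (fun hh => (((hf b hb).2 b hb).1 hh) rfl)
  have hcl : G.IsNClique (m + 1) (K.image f) := by
    refine ⟨?_, ?_⟩
    · intro u hu w hw huw
      rw [Finset.mem_coe, Finset.mem_image] at hu hw
      obtain ⟨a, ha, rfl⟩ := hu
      obtain ⟨b, hb, rfl⟩ := hw
      exact hfadj a ha b hb (fun e => huw (by rw [e]))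
    · rw [Finset.card_image_of_injOn, hK.2]
      intro a ha b hb hab
      by_contra hne
      exact hfne a ha b hb hne hab
  refine h.free _ (clique_insert (v := v) hcl ?_)
  intro k hk
  rw [Finset.mem_image] at hk
  obtain ⟨a, ha, rfl⟩ := hk
  exact (hf a ha).1

/-- no minimal counterexample without long hammer -/
theorem long_contra2 (h : MinCE G m) (hm : 2 ≤ m) (hL : LongF G m) : False := by
  classical
  obtain ⟨b0, K0, hK0, _⟩ := h.bad (fun _ => true)
  obtain ⟨x0, hx0⟩ : K0.Nonempty := Finset.card_pos.1 (by rw [hK0.2]; omega)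
  obtain ⟨v, _, hv0⟩ := Finset.exists_min_image (Finset.univ : Finset V)
    (fun v => (KR G m v).card) ⟨x0, Finset.mem_univ _⟩
  have hmin : ∀ u, (KR G m v).card ≤ (KR G m u).card := fun u => hv0 u (Finset.mem_univ _)
  have hall : ∀ K ∈ KR G m v, ∃ x ∈ K, ∀ s, G.Adj v s → ¬ G.Adj s x := by
    intro K hK
    rw [mem_KR] at hK
    exact exists_anti h hm hL hmin hK.1 hK.2
  -- colour 1: neighbours of v and vertices of missed cliques without neighbour next to v
  let Z : V → Prop := fun z => z ≠ v ∧ ¬ G.Adj v z ∧ ∀ s, G.Adj v s → ¬ G.Adj s z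
  obtain ⟨b, T, hT, hTb⟩ := h.bad (fun u => decide (G.Adj v u ∨ Z u))
  have hcard : 1 < T.card := by rw [hT.2]; omega
  cases b with
  | true =>
    have hTA : ∀ t ∈ T, G.Adj v t ∨ Z t := fun t ht => by simpa using hTb t ht
    by_cases hz : ∃ z ∈ T, Z z
    · obtain ⟨z, hz, hZ⟩ := hz
      have hno : ∀ t ∈ T, ¬ G.Adj v t := by
        intro t ht hvt
        have hne : t ≠ z := fun e => hZ.2.1 (e ▸ hvt)
        exact hZ.2.2 t hvt (hT.1 ht hz hne)
      have hvT : v ∉ T := by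
        intro hv
        rcases hTA v hv with hh | hh
        · exact G.loopless.irrefl v hh
        · exact hh.1 rfl
      have hRT : Rem G T v := ⟨hvT, hno⟩
      obtain ⟨w, hvw, b, hb, hwb⟩ := lemC h hm hL hmin hT hRT
      rcases hTA b hb with hh | hh
      · exact hno b hb hh
      · exact hh.2.2 w hvw hwb
    · push Not at hz
      refine h.free _ (clique_insert (v := v) hT ?_)
      intro k hk
      rcases hTA k hk with hh | hh
      · exact hh
      · exact absurd hh (hz k hk)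
  | false =>
    have hTA : ∀ t ∈ T, ¬ (G.Adj v t ∨ Z t) := fun t ht => by simpa using hTb t ht
    have hvT : v ∉ T := by
      intro hv
      obtain ⟨u, hu, huv⟩ := Finset.exists_mem_ne hcard v
      exact hTA u hu (Or.inl (hT.1 hv hu (Ne.symm huv)))
    have hRT : Rem G T v := ⟨hvT, fun k hk hvk => hTA k hk (Or.inl hvk)⟩
    obtain ⟨x, hx, hxs⟩ := hall T (mem_KR.2 ⟨hT, hRT⟩)
    refine hTA x hx (Or.inr ⟨?_, hRT.2 x hx, hxs⟩)
    rintro rfl
    exact hvT hx

end Pool.Agent.H92.HM
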