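import Mathlib
import Pool.Agent.H92.HM.HCor
import Pool.Agent.H92.HM.Long2

/-!
MP_5aa732_co: graphs without long hammer.
-/

set_option autoImplicit false
set_option linter.unusedSectionVars false
set_option linter.unusedVariables false

namespace Pool.Agent.H92.HM

open SimpleGraph Finset Pool.Agent.H92.TD Pool.Agent.H92.TP

/-- The long hammer: triangle `0, 1, 2` and path `2, 3, 4, 5`. -/
def longHammer : SimpleGraph (Fin 6) :=
  SimpleGraph.fromEdgeSet {s(0, 1), s(0, 2), s(1, 2), s(2, 3), s(3, 4), s(4, 5)}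

variable {V : Type} {G : SimpleGraph V}

/-- (E) clique number at least three, no long hammer whose triangle is in a maximum clique missed by `4` or
whose last edge is in a maximum clique missed by `2` -/
def CondE {V : Type} (G : SimpleGraph V) (H : Finset V) (w : ℕ) : Prop :=
  3 ≤ w ∧ ∀ f : longHammer ↪g G, (∀ i, f i ∈ H) → ∀ K : Finset V, K ⊆ H → G.IsNClique w K →
    ¬ (f 0 ∈ K ∧ f 1 ∈ K ∧ f 2 ∈ K ∧ Misses G K (f 4)) ∧ ¬ (f 4 ∈ K ∧ f 5 ∈ K ∧ Misses G K (f 2))

/-- the long hammer given by its vertices -/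
theorem mk_long {a b c p q r : V} (hab : G.Adj a b) (hac : G.Adj a c) (hbc : G.Adj b c)
    (hap : G.Adj a p) (hpq : G.Adj p q) (hqr : G.Adj q r) (nbp : ¬ G.Adj b p) (ncp : ¬ G.Adj c p)
    (naq : ¬ G.Adj a q) (nbq : ¬ G.Adj b q) (ncq : ¬ G.Adj c q) (nar : ¬ G.Adj a r)
    (nbr : ¬ G.Adj b r) (ncr : ¬ G.Adj c r) (npr : ¬ G.Adj p r) :
    ∃ f : longHammer ↪g G, f 0 = b ∧ f 1 = c ∧ f 2 = a ∧ f 3 = p ∧ f 4 = q ∧ f 5 = r := by
  have e1 : a ≠ b := G.ne_of_adj hab
  have e2 : a ≠ c := G.ne_of_adj hac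
  have e3 : b ≠ c := G.ne_of_adj hbc
  have e4 : a ≠ p := G.ne_of_adj hap
  have e5 : p ≠ q := G.ne_of_adj hpq
  have e6 : q ≠ r := G.ne_of_adj hqr
  have e7 : b ≠ p := fun e => ncp (by rw [← e]; exact hbc.symm)
  have e8 : c ≠ p := fun e => nbp (by rw [← e]; exact hbc)
  have e9 : a ≠ q := fun e => nbq (by rw [← e]; exact hab.symm)
  have e10 : b ≠ q := fun e => naq (by rw [← e]; exact hab)
  have e11 : c ≠ q := fun e => naq (by rw [← e]; exact hac)
  have e12 : a ≠ r := fun e => nbr (by rw [← e]; exact hab.symm)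
  have e13 : b ≠ r := fun e => nar (by rw [← e]; exact hab)
  have e14 : c ≠ r := fun e => nar (by rw [← e]; exact hac)
  have e15 : p ≠ r := fun e => nar (by rw [← e]; exact hap)
  let f : Fin 6 → V := ![b, c, a, p, q, r]
  have hf : Function.Injective f := by
    intro i j hij
    fin_cases i <;> fin_cases j <;> simp_all [f]
  refine ⟨⟨⟨f, hf⟩, ?_⟩, rfl, rfl, rfl, rfl, rfl, rfl⟩
  intro i j
  have npb : ¬ G.Adj p b := fun h => nbp h.symm
  have npc : ¬ G.Adj p c := fun h => ncp h.symm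
  have nqa : ¬ G.Adj q a := fun h => naq h.symm
  have nqb : ¬ G.Adj q b := fun h => nbq h.symm
  have nqc : ¬ G.Adj q c := fun h => ncq h.symm
  have nra : ¬ G.Adj r a := fun h => nar h.symm
  have nrb : ¬ G.Adj r b := fun h => nbr h.symm
  have nrc : ¬ G.Adj r c := fun h => ncr h.symm
  have nrp : ¬ G.Adj r p := fun h => npr h.symm
  have hba := hab.symm
  have hca := hac.symm
  have hcb := hbc.symm
  have hpa := hap.symm
  have hqp := hpq.symm
  have hrq := hqr.symm
  fin_cases i <;> fin_cases j <;>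
    simp [f, longHammer, hab, hac, hbc, hap, hpq, hqr, nbp, ncp, naq, nbq, ncq, nar, nbr, ncr, npr,
      hba, hca, hcb, hpa, hqp, hrq, npb, npc, nqa, nqb, nqc, nra, nrb, nrc, nrp]

theorem longF_of {V₀ : Type} {G₀ : SimpleGraph V₀} [Fintype V] (f : G ↪g G₀) {m : ℕ}
    (h : CondE G₀ ((Finset.univ : Finset V).map f.toEmbedding) (m + 1)) : LongF G m := by
  intro K a b c p q r hK hor hab hac hbc hap hpq hqr nbp ncp naq nbq ncq nar nbr ncr npr
  obtain ⟨g, g0, g1, g2, g3, g4, g5⟩ :=
    mk_long hab hac hbc hap hpq hqr nbp ncp naq nbq ncq nar nbr ncr npr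
  have mm : ∀ {S : Finset V} {y : V}, y ∈ S → f y ∈ S.map f.toEmbedding :=
    fun {S y} hy => Finset.mem_map.2 ⟨y, hy, rfl⟩
  obtain ⟨h1, h2⟩ := h.2 (g.trans f) (fun i => mem_img f (g i)) (K.map f.toEmbedding) (map_sub f K)
    (map_nclique f hK)
  rcases hor with ⟨ha, hb, hc, hR⟩ | ⟨hq, hr, hR⟩
  · refine h1 ⟨?_, ?_, ?_, ?_⟩
    · show f (g 0) ∈ _
      rw [g0]; exact mm hb
    · show f (g 1) ∈ _
      rw [g1]; exact mm hc
    · show f (g 2) ∈ _
      rw [g2]; exact mm ha
    · show Misses G₀ _ (f (g 4))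
      rw [g4]; exact map_misses f hR
  · refine h2 ⟨?_, ?_, ?_⟩
    · show f (g 4) ∈ _
      rw [g4]; exact mm hq
    · show f (g 5) ∈ _
      rw [g5]; exact mm hr
    · show Misses G₀ _ (f (g 2))
      rw [g2]; exact map_misses f hR

/-- five conditions -/
def Good2 {V : Type} (G : SimpleGraph V) (H : Finset V) (w : ℕ) : Prop :=
  CondA G H ∨ CondB G H w ∨ CondC G H w ∨ CondD G H w ∨ CondE G H w

/-- a minimal counterexample embedded onto `H` violates all five conditions -/
theorem good_contra {V₀ : Type} [Fintype V₀] {G₀ : SimpleGraph V₀} {V : Type} [Fintype V] {G : SimpleGraph V}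
    {m : ℕ} (hM : MinCE G m) (f : G ↪g G₀)
    (hgood : Good G₀ ((Finset.univ : Finset V).map f.toEmbedding) (m + 1)) : False := by
  classical
  obtain ⟨b0, K0, hK0, _⟩ := hM.bad (fun _ => true)
  -- use the assembled theorem for the range of `f`
  rcases hgood with hA | hB | hC | hD
  · obtain ⟨v, hv, hE⟩ := hA
    rw [Finset.mem_map] at hv
    obtain ⟨v, _, rfl⟩ := hv
    obtain ⟨c, hc⟩ := col_of_noP4 hM.one hM.free hM.c5 v (by
      intro a b c d ha hb hc hd nva nvb nvc nvd nac nbd nad hab hbc hcd hac hbd had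
      have key : ∀ x, x ≠ v → ¬ G.Adj v x →
          f x ∈ {x : V₀ | x ∈ (Finset.univ : Finset V).map f.toEmbedding ∧
            x ≠ f.toEmbedding v ∧ ¬ G₀.Adj (f.toEmbedding v) x} := by
        intro x hx hvx
        exact ⟨mem_img f x, fun e => hx (f.injective e), fun e => hvx (f.map_rel_iff.1 e)⟩
      exact noP4_of_isEmpty hE (key a ha nva) (key b hb nvb) (key c hc nvc) (key d hd nvd)
        (fun e => nac (f.injective e)) (fun e => nbd (f.injective e))
        (fun e => nad (f.injective e)) (f.map_rel_iff.2 hab) (f.map_rel_iff.2 hbc)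
        (f.map_rel_iff.2 hcd) (fun e => hac (f.map_rel_iff.1 e))
        (fun e => hbd (f.map_rel_iff.1 e)) (fun e => had (f.map_rel_iff.1 e)))
    obtain ⟨b, K, hK, hb⟩ := hM.bad c
    exact hc K hK b hb
  · obtain ⟨v, hv, hE⟩ := hB
    rw [Finset.mem_map] at hv
    obtain ⟨v, _, rfl⟩ := hv
    obtain ⟨c, hc⟩ := exch_col hM.one hM.free hM.c5 v (by
      intro K K' T x x' hK hK' hT hKv hK'v hvT hxK hxT hxK' hxT' hne hu hu'
      have mm : ∀ {S : Finset V} {y : V}, y ∈ S → f y ∈ S.map f.toEmbedding :=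
        fun {S y} hy => Finset.mem_map.2 ⟨y, hy, rfl⟩
      have mm' : ∀ {S : Finset V} {y : V}, f y ∈ S.map f.toEmbedding → y ∈ S := by
        intro S y hy
        rw [Finset.mem_map] at hy
        obtain ⟨z, hz, hzy⟩ := hy
        exact (f.injective hzy) ▸ hz
      obtain ⟨K'', hK'', hKK⟩ := hE (K.map f.toEmbedding) (K'.map f.toEmbedding)
        (T.map f.toEmbedding) (f x) (f x') (map_sub f K) (map_sub f K') (map_sub f T)
        (map_nclique f hK) (map_nclique f hK') (map_nclique f hT) (map_misses f hKv)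
        (map_misses f hK'v) (fun h => hvT (mm' h)) (mm hxK) (mm hxT) (mm hxK') (mm hxT')
        (fun e => hne (f.injective e))
        (by
          intro t ht htK
          rw [Finset.mem_map] at ht
          obtain ⟨t, ht, rfl⟩ := ht
          exact congrArg f (hu t ht (mm' htK)))
        (by
          intro t ht htK
          rw [Finset.mem_map] at ht
          obtain ⟨t, ht, rfl⟩ := ht
          exact congrArg f (hu' t ht (mm' htK)))
      have hsub : K'' ⊆ (Finset.univ : Finset V).map f.toEmbedding := by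
        intro k hk
        rcases (hKK k hk).1 with h | h
        · exact map_sub f K h
        · exact map_sub f K' h
      obtain ⟨L, rfl, hL⟩ := back_clique f hsub hK''.1
      refine ⟨L, ⟨hL, by have := hK''.2; rwa [Finset.card_map] at this⟩, ?_⟩
      intro k hk
      have h3 := hKK (f k) (mm hk)
      refine ⟨?_, fun e => h3.2.1 (by rw [e]), fun e => h3.2.2 (by rw [e])⟩
      rcases h3.1 with h | h
      · exact Or.inl (mm' h)
      · exact Or.inr (mm' h))
    obtain ⟨b, K, hK, hb⟩ := hM.bad c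
    exact hc K hK b hb
  · obtain ⟨d, hd, hdw, hE⟩ := hC
    refine tail_contra hM hd hdw ?_
    intro K D y z a hK hc hzK hz hzy ha hya hDK hDy
    have := hE (K.map f.toEmbedding) (D.map f.toEmbedding) (f y) (f z) (f a) (map_sub f K)
      (mem_img f y) (mem_img f z) (map_clique f hK) (by rw [Finset.card_map]; exact hc)
      (map_misses f ⟨hzK, hz⟩) (f.map_rel_iff.2 hzy) (Finset.mem_map.2 ⟨a, ha, rfl⟩)
      (f.map_rel_iff.2 hya) (Finset.map_subset_map.2 hDK) (by
        intro k hk hadj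
        rw [Finset.mem_map] at hk
        obtain ⟨k, hk, rfl⟩ := hk
        exact hDy k hk (f.map_rel_iff.1 hadj))
    rwa [Finset.card_map] at this
  · obtain ⟨d, hd, hdw, hE⟩ := hD
    refine far_contra hM hd (by omega) ?_
    intro K D y z hK hzK hz hzy hDK hDy
    have := hE (K.map f.toEmbedding) (D.map f.toEmbedding) (f y) (f z) (map_sub f K)
      (mem_img f y) (mem_img f z) (map_nclique f hK)
      (map_misses f ⟨hzK, hz⟩) (f.map_rel_iff.2 hzy) (Finset.map_subset_map.2 hDK) (by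
        intro k hk hadj
        rw [Finset.mem_map] at hk
        obtain ⟨k, hk, rfl⟩ := hk
        exact hDy k hk (f.map_rel_iff.1 hadj))
    rwa [Finset.card_map] at this

/-- every vertex of `H` misses a `w`-clique of `H` -/
def AllMiss {V : Type} (G : SimpleGraph V) (H : Finset V) (w : ℕ) : Prop :=
  ∀ v ∈ H, ∃ K : Finset V, K ⊆ H ∧ G.IsNClique w K ∧ Misses G K v

theorem allMiss_of {V₀ : Type} {G₀ : SimpleGraph V₀} [Fintype V] (f : G ↪g G₀) {m : ℕ}
    (hM : MinCE G m) : AllMiss G₀ ((Finset.univ : Finset V).map f.toEmbedding) (m + 1) := by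
  intro v hv
  rw [Finset.mem_map] at hv
  obtain ⟨v, _, rfl⟩ := hv
  obtain ⟨K, hK, hR⟩ := exists_remote hM v
  exact ⟨K.map f.toEmbedding, map_sub f K, map_nclique f hK, map_misses f hR⟩

theorem lm_core {V₀ : Type} {G₀ : SimpleGraph V₀} [Fintype V₀] (S₀ : Finset V₀) (m : ℕ)
    (hm : 1 ≤ m)
    (hG : ∀ H : Finset V₀, H ⊆ S₀ → Omega G₀ H (m + 1) → AllMiss G₀ H (m + 1) →
      Good2 G₀ H (m + 1) ∨ (m = 1 ∧ OddHoleFree G₀))
    (V : Type) [Fintype V] (G : SimpleGraph V) (hf : G.CliqueFree (m + 2)) (hG5 : C5free G)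
    (hemb : ∃ f : G ↪g G₀, ∀ x, f x ∈ S₀) :
    ∃ c : V → Bool, ∀ K : Finset V, G.IsNClique (m + 1) K → ∀ b : Bool, ¬ ∀ x ∈ K, c x = b := by
  classical
  refine core_gen2 m hm (fun V G => ∃ f : G ↪g G₀, ∀ x, f x ∈ S₀) ?_ ?_ V G hf hG5 hemb
  · rintro V _ G z ⟨f, hfS⟩
    exact ⟨(SimpleGraph.Embedding.induce _).trans f, fun x => hfS _⟩
  · rintro V _ G ⟨f, hfS⟩ hM
    obtain ⟨b0, K0, hK0, _⟩ := hM.bad (fun _ => true)
    rcases hG ((Finset.univ : Finset V).map f.toEmbedding) (by
          intro x hx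
          rw [Finset.mem_map] at hx
          obtain ⟨y, _, rfl⟩ := hx
          exact hfS y) (omega_img f hM.free ⟨K0, hK0⟩) (allMiss_of f hM) with hgood | ⟨hm1, ho⟩
    · rcases hgood with h | h | h | h | h
      · exact good_contra hM f (Or.inl h)
      · exact good_contra hM f (Or.inr (Or.inl h))
      · exact good_contra hM f (Or.inr (Or.inr (Or.inl h)))
      · exact good_contra hM f (Or.inr (Or.inr (Or.inr h)))
      · exact long_contra2 hM (by have := h.1; omega)
          (longF_of f h)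
    · subst hm1
      have ho' : OddHoleFree G := by
        intro k hk
        refine ⟨fun g => (ho k hk).false (g.trans f)⟩
      obtain ⟨c, hc⟩ := two_col hM.free ho'
      obtain ⟨b, K, hK, hb⟩ := hM.bad c
      have hcard : 1 < K.card := by rw [hK.2]; omega
      obtain ⟨x, hx, y, hy, hxy⟩ := Finset.one_lt_card.1 hcard
      exact hc x y (hK.1 hx hy hxy) ((hb x hx).trans (hb y hy).symm)

/-- The 2-division of one vertex set. -/
theorem lm_div {V₀ : Type} {G₀ : SimpleGraph V₀} [DecidableEq V₀] [Fintype V₀] (h5 : C5free G₀)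
    (S : Finset V₀) (w : ℕ) (hw2 : 2 ≤ w)
    (hw : Omega G₀ S w)
    (hG : ∀ H : Finset V₀, H ⊆ S → Omega G₀ H w → AllMiss G₀ H w →
      Good2 G₀ H w ∨ (w = 2 ∧ OddHoleFree G₀)) :
    ∃ A : Finset V₀, A ⊆ S ∧
      (∀ T : Finset V₀, T ⊆ A → G₀.IsClique (T : Set V₀) →
          ∃ T' : Finset V₀, T' ⊆ S ∧ G₀.IsClique (T' : Set V₀) ∧ T.card < T'.card) ∧
      (∀ T : Finset V₀, T ⊆ S \ A → G₀.IsClique (T : Set V₀) →
          ∃ T' : Finset V₀, T' ⊆ S ∧ G₀.IsClique (T' : Set V₀) ∧ T.card < T'.card) := by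
  refine asm_back_gen (fun _ _ => True) S ?_ ?_
  · rintro m hm hf ⟨T, hT, hTc⟩
    obtain ⟨⟨K, hK, hKc⟩, hmax⟩ := hw
    have hwm : w = m + 1 := by
      have h1 := hmax T hT hTc.1
      rw [hTc.2] at h1
      obtain ⟨K', hK', _⟩ := asm_lift (s := (S : Set V₀)) hKc (fun x hx => by exact_mod_cast hK hx)
      have h2 := card_le_of_clique hf hK'.1
      rw [hK'.2] at h2
      omega
    subst hwm
    refine lm_core S m hm ?_ _ _ hf (c5free_induce _ h5)
      ⟨SimpleGraph.Embedding.induce _, fun x => by exact_mod_cast x.2⟩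
    intro H hH hHw hHm
    rcases hG H hH hHw hHm with h | ⟨h, ho⟩
    · exact Or.inl h
    · exact Or.inr ⟨by omega, ho⟩
  · obtain ⟨⟨K, hK, hKc⟩, _⟩ := hw
    have h1 : 1 < K.card := by rw [hKc.2]; omega
    obtain ⟨x, hx, y, hy, hxy⟩ := Finset.one_lt_card.1 h1
    exact ⟨x, hK hx, y, hK hy, hKc.1 hx hy hxy⟩

/-- sets with an edge -/
theorem lm_edge [DecidableEq V] [Fintype V] (ho : OddHoleFree G)
    (hG : ∀ (H : Finset V) (w : ℕ), 3 ≤ w → Omega G H w → Good2 G H w)
    (S : Finset V) (hS : ∃ u ∈ S, ∃ v ∈ S, G.Adj u v) :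
    ∃ A : Finset V, A ⊆ S ∧
      (∀ T : Finset V, T ⊆ A → G.IsClique (T : Set V) →
          ∃ T' : Finset V, T' ⊆ S ∧ G.IsClique (T' : Set V) ∧ T.card < T'.card) ∧
      (∀ T : Finset V, T ⊆ S \ A → G.IsClique (T : Set V) →
          ∃ T' : Finset V, T' ⊆ S ∧ G.IsClique (T' : Set V) ∧ T.card < T'.card) := by
  obtain ⟨u, hu, v, hv, huv⟩ := hS
  obtain ⟨w, hw, h2⟩ := omega_ex G S (n := 2) ⟨{u, v}, by
    intro x hx
    simp only [Finset.mem_insert, Finset.mem_singleton] at hx
    rcases hx with rfl | rfl <;> assumption, by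
    refine ⟨?_, Finset.card_pair (G.ne_of_adj huv)⟩
    intro x hx y hy hxy
    simp only [Finset.coe_insert, Finset.coe_singleton, Set.mem_insert_iff,
      Set.mem_singleton_iff] at hx hy
    rcases hx with rfl | rfl <;> rcases hy with rfl | rfl
    · exact absurd rfl hxy
    · exact huv
    · exact huv.symm
    · exact absurd rfl hxy⟩
  refine lm_div (C5free_of ho) S w h2 hw ?_
  intro H _ hH _
  rcases Nat.lt_or_ge w 3 with h3 | h3
  · exact Or.inr ⟨by omega, ho⟩
  · exact Or.inl (hG H w h3 hH)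

theorem condE_of (h1 : IsEmpty (longHammer ↪g G)) (H : Finset V) {w : ℕ} (hw : 3 ≤ w) :
    CondE G H w :=
  ⟨hw, fun g => (h1.false g).elim⟩

/-- the path on five vertices in the long hammer -/
def p5_long : SimpleGraph.pathGraph 5 ↪g longHammer where
  toFun := ![1, 2, 3, 4, 5]
  inj' := by decide
  map_rel_iff' := by
    intro i j
    fin_cases i <;> fin_cases j <;> simp [longHammer, SimpleGraph.pathGraph_adj]

/-- the hammer in the long hammer -/
def hammer_long : hammer ↪g longHammer where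
  toFun := ![0, 1, 2, 3, 4]
  inj' := by decide
  map_rel_iff' := by
    intro i j
    fin_cases i <;> fin_cases j <;> simp [longHammer, hammer]

/-- a triangle and a disjoint edge -/
def triEdge : SimpleGraph (Fin 5) :=
  SimpleGraph.fromEdgeSet {s(0, 1), s(0, 2), s(1, 2), s(3, 4)}

/-- triangle and edge in the long hammer -/
def triEdge_long : triEdge ↪g longHammer where
  toFun := ![0, 1, 2, 4, 5]
  inj' := by decide
  map_rel_iff' := by
    intro i j
    fin_cases i <;> fin_cases j <;> simp [longHammer, triEdge]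

end Pool.Agent.H92.HM
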