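import Mathlib
import Pool.Agent.H92.HM.LCor

/-!
MP_5aa732_co: it suffices to consider prime induced subgraphs (no non-trivial homogeneous set).
-/

set_option autoImplicit false
set_option linter.unusedSectionVars false
set_option linter.unusedVariables false

namespace Pool.Agent.H92.HM

open SimpleGraph Finset Pool.Agent.H92.TD Pool.Agent.H92.TP

/-- colouring of `S` without monochromatic `w`-clique -/
def Col {V : Type} (G : SimpleGraph V) (S : Finset V) (w : ℕ) : Prop :=
  ∃ c : V → Bool, ∀ K : Finset V, K ⊆ S → G.IsNClique w K → ∀ b : Bool, ¬ ∀ x ∈ K, c x = b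

/-- no homogeneous set with at least two elements except `H` -/
def PrimeSet {V : Type} (G : SimpleGraph V) (H : Finset V) : Prop :=
  ∀ M : Finset V, M ⊆ H → 2 ≤ M.card →
    (∀ z ∈ H, z ∉ M → (∀ x ∈ M, G.Adj z x) ∨ (∀ x ∈ M, ¬ G.Adj z x)) → M = H

variable {V : Type} {G : SimpleGraph V}

/-- a homogeneous set with an edge -/
theorem col_mod {S M : Finset V} {w t : ℕ}
    (hw : ∀ K : Finset V, K ⊆ S → G.IsClique (K : Set V) → K.card ≤ w) (hMS : M ⊆ S)
    (hmod : ∀ z ∈ S, z ∉ M → (∀ x ∈ M, G.Adj z x) ∨ (∀ x ∈ M, ¬ G.Adj z x))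
    (ht : Omega G M t) (h1 : Col G M t) (h2 : ∀ S', S' ⊆ S → (∀ z ∈ S', z ∉ M) → Col G S' w) :
    Col G S w := by
  classical
  obtain ⟨c1, hc1⟩ := h1
  obtain ⟨c2, hc2⟩ := h2 (S \ M) Finset.sdiff_subset (fun z hz => (Finset.mem_sdiff.1 hz).2)
  obtain ⟨⟨T, hTM, hT⟩, htmax⟩ := ht
  refine ⟨fun x => if x ∈ M then c1 x else c2 x, ?_⟩
  intro K hKS hK b hb
  by_cases hKM : ∃ x ∈ K, x ∈ M
  · obtain ⟨x, hxK, hxM⟩ := hKM
    have e0 : G.IsClique ((K.filter (fun z => z ∈ M) : Finset V) : Set V) :=
      hK.1.subset (fun z hz => (Finset.mem_filter.1 (Finset.mem_coe.1 hz)).1)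
    have e1 : (K.filter (fun z => z ∈ M)).card ≤ t :=
      htmax _ (fun z hz => (Finset.mem_filter.1 hz).2) e0
    have hcomp : ∀ z ∈ K.filter (fun z => z ∉ M), ∀ y ∈ M, G.Adj z y := by
      intro z hz
      rw [Finset.mem_filter] at hz
      rcases hmod z (hKS hz.1) hz.2 with h | h
      · exact h
      · exact absurd (hK.1 hz.1 hxK (fun e => hz.2 (e ▸ hxM))) (h x hxM)
    have e2 : G.IsClique ((K.filter (fun z => z ∉ M) ∪ T : Finset V) : Set V) := by
      intro u hu u' hu' hne
      rw [Finset.mem_coe, Finset.mem_union] at hu hu'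
      rcases hu with hu | hu <;> rcases hu' with hu' | hu'
      · exact hK.1 (Finset.mem_filter.1 hu).1 (Finset.mem_filter.1 hu').1 hne
      · exact hcomp u hu u' (hTM hu')
      · exact (hcomp u' hu' u (hTM hu)).symm
      · exact hT.1 hu hu' hne
    have hdis : Disjoint (K.filter (fun z => z ∉ M)) T := by
      rw [Finset.disjoint_left]
      intro z hz hzT
      exact (Finset.mem_filter.1 hz).2 (hTM hzT)
    have e3 := hw _ (by
      intro z hz
      rcases Finset.mem_union.1 hz with h | h
      · exact hKS (Finset.mem_filter.1 h).1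
      · exact hMS (hTM h)) e2
    rw [Finset.card_union_of_disjoint hdis, hT.2] at e3
    have e4 := Finset.card_filter_add_card_filter_not (s := K) (fun z => z ∈ M)
    rw [hK.2] at e4
    have e6 : (K.filter (fun z => z ∈ M)).card = t := by omega
    refine hc1 _ (fun z hz => (Finset.mem_filter.1 hz).2) ⟨e0, e6⟩ b ?_
    intro z hz
    have h := hb z (Finset.mem_filter.1 hz).1
    simpa only [if_pos (Finset.mem_filter.1 hz).2] using h
  · push Not at hKM
    refine hc2 K (fun z hz => Finset.mem_sdiff.2 ⟨hKS hz, hKM z hz⟩) hK b ?_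
    intro z hz
    have h := hb z hz
    simpa only [if_neg (hKM z hz)] using h

/-- a stable homogeneous set -/
theorem col_stable {S M : Finset V} {w : ℕ} (hMS : M ⊆ S)
    (hmod : ∀ z ∈ S, z ∉ M → (∀ x ∈ M, G.Adj z x) ∨ (∀ x ∈ M, ¬ G.Adj z x))
    (hst : ∀ x ∈ M, ∀ y ∈ M, ¬ G.Adj x y) {x : V} (hx : x ∈ M)
    (h : ∀ S', S' ⊆ S → (∀ z ∈ S', z ∉ M ∨ z = x) → Col G S' w) : Col G S w := by
  classical
  obtain ⟨c, hc⟩ := h (S.filter (fun z => z ∉ M ∨ z = x)) (Finset.filter_subset _ _)
    (fun z hz => (Finset.mem_filter.1 hz).2)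
  refine ⟨fun z => if z ∈ M then c x else c z, ?_⟩
  intro K hKS hK b hb
  by_cases hKM : ∃ y ∈ K, y ∈ M
  · obtain ⟨y, hyK, hyM⟩ := hKM
    have huniq : ∀ z ∈ K, z ∈ M → z = y := by
      intro z hz hzM
      by_contra hne
      exact hst z hzM y hyM (hK.1 hz hyK hne)
    have hnM : ∀ k ∈ K.erase y, k ∉ M :=
      fun k hk hkM => (Finset.ne_of_mem_erase hk) (huniq k (Finset.mem_of_mem_erase hk) hkM)
    have hxe : ∀ k ∈ K.erase y, G.Adj x k := by
      intro k hk
      have hkK := Finset.mem_of_mem_erase hk
      rcases hmod k (hKS hkK) (hnM k hk) with h | h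
      · exact (h x hx).symm
      · exact absurd (hK.1 hkK hyK (Finset.ne_of_mem_erase hk)) (h y hyM)
    have hwpos : 1 ≤ w := by
      rw [← hK.2]
      exact Finset.card_pos.2 ⟨y, hyK⟩
    have e2 : G.IsNClique (w - 1) (K.erase y) :=
      ⟨hK.1.subset (fun z hz => Finset.mem_of_mem_erase (Finset.mem_coe.1 hz)), by
        rw [Finset.card_erase_of_mem hyK, hK.2]⟩
    have e1 : G.IsNClique w (insert x (K.erase y)) := by
      have h := e2.insert hxe
      rwa [Nat.sub_add_cancel hwpos] at h
    refine hc _ ?_ e1 b ?_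
    · intro z hz
      rcases Finset.mem_insert.1 hz with rfl | hz
      · exact Finset.mem_filter.2 ⟨hMS hx, Or.inr rfl⟩
      · exact Finset.mem_filter.2 ⟨hKS (Finset.mem_of_mem_erase hz), Or.inl (hnM z hz)⟩
    · intro z hz
      rcases Finset.mem_insert.1 hz with rfl | hz
      · have h := hb y hyK
        simpa only [if_pos hyM] using h
      · have h := hb z (Finset.mem_of_mem_erase hz)
        simpa only [if_neg (hnM z hz)] using h
  · push Not at hKM
    refine hc K (fun z hz => Finset.mem_filter.2 ⟨hKS hz, Or.inl (hKM z hz)⟩) hK b ?_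
    intro z hz
    have h := hb z hz
    simpa only [if_neg (hKM z hz)] using h

theorem prime_col [Fintype V] (ho : OddHoleFree G)
    (hG : ∀ (H : Finset V) (w : ℕ), 3 ≤ w → Omega G H w → PrimeSet G H → AllMiss G H w →
      Good2 G H w) :
    ∀ (n : ℕ) (S : Finset V) (w : ℕ), S.card = n → 2 ≤ w → Omega G S w → Col G S w := by
  classical
  intro n
  induction n using Nat.strong_induction_on with
  | _ n ih =>
    intro S w hn hw hO
    have small : ∀ S' : Finset V, S' ⊂ S → Col G S' w := by
      intro S' hS'
      have hlt : S'.card < n := by rw [← hn]; exact Finset.card_lt_card hS'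
      by_cases hex : ∃ K : Finset V, K ⊆ S' ∧ G.IsNClique w K
      · exact ih _ hlt S' w rfl hw ⟨hex, fun K hK hc => hO.2 K (hK.trans hS'.1) hc⟩
      · push Not at hex
        exact ⟨fun _ => true, fun K hK hc => absurd hc (hex K hK)⟩
    rcases Nat.lt_or_ge w 3 with h3 | h3
    · have hw2 : w = 2 := by omega
      subst hw2
      have hf : (G.induce (S : Set V)).CliqueFree 3 := by
        intro K hK
        obtain ⟨L, hL, hLS⟩ := asm_push hK
        have := hO.2 L (fun x hx => by simpa using hLS x hx) hL.1
        rw [hL.2] at this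
        omega
      obtain ⟨c, hc⟩ := two_col hf (oddHoleFree_induce _ ho)
      refine ⟨fun x => if h : x ∈ (S : Set V) then c ⟨x, h⟩ else true, ?_⟩
      intro K hKS hK b hb
      have h1 : 1 < K.card := by rw [hK.2]; omega
      obtain ⟨x, hx, y, hy, hxy⟩ := Finset.one_lt_card.1 h1
      have hxS : x ∈ (S : Set V) := by exact_mod_cast hKS hx
      have hyS : y ∈ (S : Set V) := by exact_mod_cast hKS hy
      have e1 : (if h : x ∈ (S : Set V) then c ⟨x, h⟩ else true) = b := hb x hx
      have e2 : (if h : y ∈ (S : Set V) then c ⟨y, h⟩ else true) = b := hb y hy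
      rw [dif_pos hxS] at e1
      rw [dif_pos hyS] at e2
      exact hc ⟨x, hxS⟩ ⟨y, hyS⟩ (hK.1 hx hy hxy) (e1.trans e2.symm)
    · by_cases hp : PrimeSet G S
      · by_contra hcon
        obtain ⟨m, hm⟩ : ∃ m, w = m + 1 := ⟨w - 1, by omega⟩
        subst hm
        have hM : MinCE (G.induce (S : Set V)) m := by
          refine ⟨by omega, ?_, ?_, ?_, c5free_induce _ (C5free_of ho)⟩
          · intro K hK
            obtain ⟨L, hL, hLS⟩ := asm_push hK
            have := hO.2 L (fun x hx => by simpa using hLS x hx) hL.1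
            rw [hL.2] at this
            omega
          · intro c
            by_contra hb
            push Not at hb
            refine hcon ⟨fun x => if h : x ∈ (S : Set V) then c ⟨x, h⟩ else true, ?_⟩
            intro K hKS hK b hKb
            obtain ⟨L, hL, hLK⟩ := asm_lift (s := (S : Set V)) hK
              (fun x hx => by exact_mod_cast hKS hx)
            obtain ⟨x, hx, hxb⟩ := hb b L hL
            apply hxb
            have h := hKb x.1 (hLK x hx)
            have h' : (if h : x.1 ∈ (S : Set V) then c ⟨x.1, h⟩ else true) = b := h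
            rwa [dif_pos x.2] at h'
          · intro z
            apply gen_min z
            obtain ⟨c, hc⟩ := small (S.erase z.1) (Finset.erase_ssubset (by exact_mod_cast z.2))
            refine ⟨fun x => c x.1.1, ?_⟩
            intro K hK b hb
            have hinj : Function.Injective
                (fun x : ↥({z}ᶜ : Set ↥(S : Set V)) => x.1.1) :=
              fun x y h => Subtype.ext (Subtype.ext h)
            refine hc (K.map ⟨fun x => x.1.1, hinj⟩) ?_ ⟨?_, by rw [Finset.card_map]; exact hK.2⟩
              b ?_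
            · intro u hu
              rw [Finset.mem_map] at hu
              obtain ⟨x, hx, rfl⟩ := hu
              exact Finset.mem_erase.2 ⟨fun e => x.2 (Subtype.ext e), by exact_mod_cast x.1.2⟩
            · intro u hu u' hu' hne
              rw [Finset.mem_coe, Finset.mem_map] at hu hu'
              obtain ⟨x, hx, rfl⟩ := hu
              obtain ⟨x', hx', rfl⟩ := hu'
              exact hK.1 hx hx' (fun e => hne (by rw [e]))
            · intro u hu
              rw [Finset.mem_map] at hu
              obtain ⟨x, hx, rfl⟩ := hu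
              exact hb x hx
        obtain ⟨f, hf⟩ : ∃ f : (G.induce (S : Set V)) ↪g G, ∀ x, f x = x.1 :=
          ⟨SimpleGraph.Embedding.induce _, fun _ => rfl⟩
        have himg : (Finset.univ : Finset ↥(S : Set V)).map f.toEmbedding = S := by
          ext x
          rw [Finset.mem_map]
          constructor
          · rintro ⟨y, _, rfl⟩
            have : f.toEmbedding y = y.1 := hf y
            rw [this]
            exact_mod_cast y.2
          · intro hx
            exact ⟨⟨x, by exact_mod_cast hx⟩, Finset.mem_univ _, hf _⟩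
        have hgood' : Good2 G ((Finset.univ : Finset ↥(S : Set V)).map f.toEmbedding) (m + 1) := by
          rw [himg]
          refine hG S (m + 1) h3 hO hp ?_
          have h := allMiss_of f hM
          rwa [himg] at h
        rcases hgood' with h | h | h | h | h
        · exact good_contra hM f (Or.inl h)
        · exact good_contra hM f (Or.inr (Or.inl h))
        · exact good_contra hM f (Or.inr (Or.inr (Or.inl h)))
        · exact good_contra hM f (Or.inr (Or.inr (Or.inr h)))
        · exact long_contra2 hM (by have := h.1; omega) (longF_of f h)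
      · unfold PrimeSet at hp
        push Not at hp
        obtain ⟨M, hMS, hM2, hmod, hne⟩ := hp
        have hMss : M ⊂ S := Finset.ssubset_iff_subset_ne.2 ⟨hMS, hne⟩
        have hmod' : ∀ z ∈ S, z ∉ M → (∀ x ∈ M, G.Adj z x) ∨ (∀ x ∈ M, ¬ G.Adj z x) := hmod
        by_cases hst : ∀ x ∈ M, ∀ y ∈ M, ¬ G.Adj x y
        · obtain ⟨x, hx⟩ : M.Nonempty := Finset.card_pos.1 (by omega)
          refine col_stable hMS hmod' hst hx ?_
          intro S' hS' hS'M
          refine small S' ?_
          rw [Finset.ssubset_iff_of_subset hS']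
          obtain ⟨y, hy, hyx⟩ := Finset.exists_mem_ne (by omega : 1 < M.card) x
          exact ⟨y, hMS hy, fun hh => (hS'M y hh).elim (fun h => h hy) hyx⟩
        · push Not at hst
          obtain ⟨x, hx, y, hy, hxy⟩ := hst
          obtain ⟨t, ht, ht2⟩ := omega_ex G M (n := 2) ⟨{x, y}, by
            intro z hz
            simp only [Finset.mem_insert, Finset.mem_singleton] at hz
            rcases hz with rfl | rfl <;> assumption, by
            refine ⟨?_, Finset.card_pair (G.ne_of_adj hxy)⟩
            intro z hz z' hz' hzz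
            simp only [Finset.coe_insert, Finset.coe_singleton, Set.mem_insert_iff,
              Set.mem_singleton_iff] at hz hz'
            rcases hz with rfl | rfl <;> rcases hz' with rfl | rfl
            · exact absurd rfl hzz
            · exact hxy
            · exact hxy.symm
            · exact absurd rfl hzz⟩
          have hc1 : Col G M t :=
            ih M.card (by rw [← hn]; exact Finset.card_lt_card hMss) M t rfl ht2 ht
          refine col_mod hO.2 hMS hmod' ht hc1 ?_
          intro S' hS' hS'M
          refine small S' ?_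
          rw [Finset.ssubset_iff_of_subset hS']
          exact ⟨x, hMS hx, fun hh => hS'M x hh hx⟩

/-- sets with an edge, conditions for prime sets -/
theorem prime_edge [DecidableEq V] [Fintype V] (ho : OddHoleFree G)
    (hG : ∀ (H : Finset V) (w : ℕ), 3 ≤ w → Omega G H w → PrimeSet G H → AllMiss G H w →
      Good2 G H w)
    (S : Finset V) (hS : ∃ u ∈ S, ∃ v ∈ S, G.Adj u v) :
    ∃ A : Finset V, A ⊆ S ∧
      (∀ T : Finset V, T ⊆ A → G.IsClique (T : Set V) →
          ∃ T' : Finset V, T' ⊆ S ∧ G.IsClique (T' : Set V) ∧ T.card < T'.card) ∧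
      (∀ T : Finset V, T ⊆ S \ A → G.IsClique (T : Set V) →
          ∃ T' : Finset V, T' ⊆ S ∧ G.IsClique (T' : Set V) ∧ T.card < T'.card) := by
  refine asm_back_gen (fun _ _ => True) S ?_ hS
  intro m hm hf hT
  have hO : Omega G S (m + 1) := by
    refine ⟨hT, ?_⟩
    intro K hK hKc
    by_contra hlt
    push Not at hlt
    obtain ⟨L, hL, hLc⟩ := sub_clique (n := m + 2) hKc (by omega)
    obtain ⟨L', hL', _⟩ := asm_lift (s := (S : Set V)) hLc
      (fun x hx => by exact_mod_cast hK (hL hx))
    exact hf L' hL'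
  obtain ⟨c, hc⟩ := prime_col ho hG S.card S (m + 1) rfl (by omega) hO
  refine ⟨fun x => c x.1, ?_⟩
  intro K hK b hb
  have hinj : Function.Injective (fun x : ↥(S : Set V) => x.1) := fun x y h => Subtype.ext h
  refine hc (K.map ⟨fun x => x.1, hinj⟩) ?_ ⟨?_, by rw [Finset.card_map]; exact hK.2⟩ b ?_
  · intro u hu
    rw [Finset.mem_map] at hu
    obtain ⟨x, hx, rfl⟩ := hu
    exact_mod_cast x.2
  · intro u hu u' hu' hne
    rw [Finset.mem_coe, Finset.mem_map] at hu hu'
    obtain ⟨x, hx, rfl⟩ := hu
    obtain ⟨x', hx', rfl⟩ := hu'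
    exact hK.1 hx hx' (fun e => hne (by rw [e]))
  · intro u hu
    rw [Finset.mem_map] at hu
    obtain ⟨x, hx, rfl⟩ := hu
    exact hb x hx

end Pool.Agent.H92.HM
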