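import Mathlib
import Pool.Agent.H92.HM.Prime

/-!
MP_5aa732_co: the exchange condition follows if no induced path on four vertices has its end edges in
missed maximum cliques.
-/

set_option autoImplicit false
set_option linter.unusedSectionVars false
set_option linter.unusedVariables false

namespace Pool.Agent.H92.HM

open SimpleGraph Finset Pool.Agent.H92.TD Pool.Agent.H92.TP

/-- some `v` in `H`: no induced path `a, b, c, d` with `a, b` in `K` and `c, d` in `K'`, where `K`, `K'`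
are `w`-cliques of `H` missed by `v` -/
def CondP {V : Type} (G : SimpleGraph V) (H : Finset V) (w : ℕ) : Prop :=
  ∃ v ∈ H, ∀ (K K' : Finset V) (a b c d : V), K ⊆ H → K' ⊆ H → G.IsNClique w K → G.IsNClique w K' →
    Misses G K v → Misses G K' v → a ∈ K → b ∈ K → c ∈ K' → d ∈ K' → a ≠ c → b ≠ d → a ≠ d →
    G.Adj b c → ¬ G.Adj a c → ¬ G.Adj b d → ¬ G.Adj a d → False

variable {V : Type} {G : SimpleGraph V}

theorem condB_of {H : Finset V} {w : ℕ} (hw : 1 ≤ w)
    (hO : ∀ K : Finset V, K ⊆ H → G.IsClique (K : Set V) → K.card ≤ w)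
    (h : CondP G H w) : CondB G H w := by
  classical
  obtain ⟨v, hv, hP⟩ := h
  refine ⟨v, hv, ?_⟩
  intro K K' T x x' hKH hK'H hTH hK hK' hT hKv hK'v hvT hxK hxT hxK' hxT' hne hu hu'
  have hxnK' : x ∉ K' := fun hh => hne (hu' x hxT hh)
  have hx'nK : x' ∉ K := fun hh => hne (hu x' hxT' hh).symm
  have hxx' : G.Adj x x' := hT.1 hxT hxT' hne
  obtain ⟨C', hC'⟩ : ∃ C' : Finset V, ∀ k, k ∈ C' ↔ k ∈ K' ∧ ¬ G.Adj x k :=
    ⟨K'.filter (fun k => ¬ G.Adj x k), fun k => Finset.mem_filter⟩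
  obtain ⟨C, hC⟩ : ∃ C : Finset V, ∀ k, k ∈ C ↔ k ∈ K ∧ ∃ k' ∈ C', ¬ G.Adj k k' :=
    ⟨K.filter (fun k => ∃ k' ∈ C', ¬ G.Adj k k'), fun k => Finset.mem_filter⟩
  have hC'K : ∀ k ∈ C', k ∉ K := by
    intro k hk hkK
    rw [hC'] at hk
    have hxk : x ≠ k := fun e => hxnK' (e ▸ hk.1)
    exact hk.2 (hK.1 hxK hkK hxk)
  have hCK' : ∀ k ∈ C, k ∉ K' := by
    intro k hk hkK'
    rw [hC] at hk
    obtain ⟨hkK, k', hk', hkk⟩ := hk
    have hne' : k ≠ k' := fun e => hC'K k' hk' (e ▸ hkK)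
    exact hkk (hK'.1 hkK' ((hC' k').1 hk').1 hne')
  have hadj1 : ∀ k ∈ K, k ∉ C → ∀ k' ∈ C', G.Adj k k' := by
    intro k hk hkC k' hk'
    by_contra hn
    exact hkC ((hC k).2 ⟨hk, k', hk', hn⟩)
  have hadj2 : ∀ k ∈ C, ∀ k' ∈ K', k' ∉ C' → G.Adj k k' := by
    intro k hk k' hk' hk'C
    by_contra hn
    obtain ⟨hkK, c', hc', hkc⟩ := (hC k).1 hk
    have hxk' : G.Adj x k' := by
      by_contra hh
      exact hk'C ((hC' k').2 ⟨hk', hh⟩)
    have hc'' := (hC' c').1 hc'
    exact hP K K' k x k' c' hKH hK'H hK hK' hKv hK'v hkK hxK hk' hc''.1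
      (fun e => hCK' k hk (e ▸ hk')) (fun e => hxnK' (e ▸ hc''.1))
      (fun e => hCK' k hk (e ▸ hc''.1)) hxk' hn hc''.2 hkc
  -- two cliques
  have hCs : C ⊆ K := fun k hk => ((hC k).1 hk).1
  have hC's : C' ⊆ K' := fun k hk => ((hC' k).1 hk).1
  have k1 : G.IsClique ((K \ C ∪ C' : Finset V) : Set V) := by
    intro y hy z hz hyz
    rw [Finset.mem_coe, Finset.mem_union, Finset.mem_sdiff] at hy hz
    rcases hy with hy | hy <;> rcases hz with hz | hz
    · exact hK.1 hy.1 hz.1 hyz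
    · exact hadj1 y hy.1 hy.2 z hz
    · exact (hadj1 z hz.1 hz.2 y hy).symm
    · exact hK'.1 (hC's hy) (hC's hz) hyz
  have k2 : G.IsClique ((K' \ C' ∪ C : Finset V) : Set V) := by
    intro y hy z hz hyz
    rw [Finset.mem_coe, Finset.mem_union, Finset.mem_sdiff] at hy hz
    rcases hy with hy | hy <;> rcases hz with hz | hz
    · exact hK'.1 hy.1 hz.1 hyz
    · exact (hadj2 z hz y hy.1 hy.2).symm
    · exact hadj2 y hy z hz.1 hz.2
    · exact hK.1 (hCs hy) (hCs hz) hyz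
  have d1 : Disjoint (K \ C) C' := by
    rw [Finset.disjoint_left]
    intro y hy hyC
    exact hC'K y hyC (Finset.mem_sdiff.1 hy).1
  have d2 : Disjoint (K' \ C') C := by
    rw [Finset.disjoint_left]
    intro y hy hyC
    exact hCK' y hyC (Finset.mem_sdiff.1 hy).1
  have s1 := hO _ (by
    intro y hy
    rw [Finset.mem_union, Finset.mem_sdiff] at hy
    rcases hy with hy | hy
    · exact hKH hy.1
    · exact hK'H (hC's hy)) k1
  have s2 := hO _ (by
    intro y hy
    rw [Finset.mem_union, Finset.mem_sdiff] at hy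
    rcases hy with hy | hy
    · exact hK'H hy.1
    · exact hKH (hCs hy)) k2
  rw [Finset.card_union_of_disjoint d1, Finset.card_sdiff_of_subset hCs, hK.2] at s1
  rw [Finset.card_union_of_disjoint d2, Finset.card_sdiff_of_subset hC's, hK'.2] at s2
  have c1 := Finset.card_le_card hCs
  have c2 := Finset.card_le_card hC's
  rw [hK.2] at c1
  rw [hK'.2] at c2
  -- x is in C
  have hxC : x ∈ C := by
    have hex : ∃ k ∈ K', ¬ G.Adj x k := by
      by_contra hcon
      push Not at hcon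
      have e1 : G.IsClique ((insert x K' : Finset V) : Set V) := by
        rw [Finset.coe_insert]
        exact hK'.1.insert (fun b hb _ => hcon b hb)
      have e2 := hO _ (Finset.insert_subset_iff.2 ⟨hKH hxK, hK'H⟩) e1
      rw [Finset.card_insert_of_notMem hxnK', hK'.2] at e2
      omega
    obtain ⟨k, hk, hxk⟩ := hex
    exact (hC x).2 ⟨hxK, k, (hC' k).2 ⟨hk, hxk⟩, hxk⟩
  refine ⟨K \ C ∪ C', ⟨k1, ?_⟩, ?_⟩
  · rw [Finset.card_union_of_disjoint d1, Finset.card_sdiff_of_subset hCs, hK.2]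
    omega
  · intro k hk
    rw [Finset.mem_union, Finset.mem_sdiff] at hk
    rcases hk with hk | hk
    · refine ⟨Or.inl hk.1, ?_, ?_⟩
      · rintro rfl
        exact hk.2 hxC
      · rintro rfl
        exact hx'nK hk.1
    · refine ⟨Or.inr (hC's hk), ?_, ?_⟩
      · rintro rfl
        exact hxnK' (hC's hk)
      · rintro rfl
        exact ((hC' k).1 hk).2 hxx'

/-- cograph non-neighbourhoods satisfy the path condition -/
theorem condP_of [Fintype V] {H : Finset V} {w : ℕ} (h : CondA G H) : CondP G H w := by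
  obtain ⟨v, hv, hE⟩ := h
  refine ⟨v, hv, ?_⟩
  intro K K' a b c d hKH hK'H hK hK' hKv hK'v ha hb hc hd hac hbd had hbc nac nbd nad
  have key : ∀ (S : Finset V) (y : V), S ⊆ H → Misses G S v → y ∈ S →
      y ∈ {x : V | x ∈ H ∧ x ≠ v ∧ ¬ G.Adj v x} := by
    intro S y hS hm hy
    exact ⟨hS hy, fun e => hm.1 (e ▸ hy), hm.2 y hy⟩
  have hab : a ≠ b := fun e => nac (e ▸ hbc)
  have hcd : c ≠ d := fun e => nbd (e ▸ hbc)
  exact noP4_of_isEmpty hE (key K a hKH hKv ha) (key K b hKH hKv hb) (key K' c hK'H hK'v hc)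
    (key K' d hK'H hK'v hd) hac hbd had (hK.1 ha hb hab) hbc (hK'.1 hc hd hcd) nac nbd nad

end Pool.Agent.H92.HM
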